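/-!
# The packed recursion: definitions only, no import (the kernel computations use only this file)
-/

set_option autoImplicit false

noncomputable section

namespace Dadc30.Pk

/-- Data of a front vertex. -/
structure Lv where
  /-- mask of the later front neighbours -/
  nb : Nat
  /-- number of bits of the row -/
  r : Nat
  /-- `2 ^ r - 1` -/
  rm : Nat
  /-- packed update of the quadratic part -/
  t : Nat
  /-- vector updates of the later front vertices -/
  th : List Nat

/-- head -/
def hd (l : List Nat) : Nat := List.rec (motive := fun _ => Nat) 0 (fun x _ _ => x) l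

/-- tail -/
def tl (l : List Nat) : List Nat := List.rec (motive := fun _ => List Nat) [] (fun _ t _ => t) l

/-- addition of lists, driven by the first one -/
def zadd (l : List Nat) : List Nat → List Nat :=
  List.rec (motive := fun _ => List Nat → List Nat) (fun _ => [])
    (fun x _ ih m => Nat.add (hd m) x :: ih (tl m)) l

/-- The recursion. -/
def go (w msk β2 H ones HH : Nat) (l : List Lv) :
    Nat → Nat → Nat → Nat → Nat → Nat → List Nat → Bool :=
  List.rec (motive := fun _ => Nat → Nat → Nat → Nat → Nat → Nat → List Nat → Bool)
    (fun _ _ _ S _ V _ =>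
      Nat.beq (Nat.land (Nat.sub (Nat.mul (Nat.add H S) ones) V) HH) HH)
    (fun lv _ ih F A Q S E V D =>
      Bool.rec (motive := fun _ => Bool)
        (Bool.rec (motive := fun _ => Bool) false
          (ih (Nat.lor (Nat.shiftRight F 1) lv.nb)
            (Nat.add (Nat.shiftRight A w) (Nat.land Q lv.rm))
            (Nat.add (Nat.shiftRight Q lv.r) lv.t)
            (Nat.sub (Nat.add S E) (Nat.land A msk)) (Nat.add E β2)
            (Nat.add V (hd D)) (zadd lv.th (tl D)))
          (ih (Nat.shiftRight F 1) (Nat.shiftRight A w) (Nat.shiftRight Q lv.r) S E V (tl D)))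
        (ih (Nat.shiftRight F 1) (Nat.shiftRight A w) (Nat.shiftRight Q lv.r) S E V (tl D))
        (Nat.beq (Nat.land F 1) 1))
    l

/-- accumulation of a linear form against packed indicators -/
def dotN : Nat → List Int → List Nat → Nat
  | acc, Int.ofNat n :: A, x :: xs => dotN (cond (Nat.beq n 0) acc (Nat.add acc (Nat.mul n x))) A xs
  | acc, Int.negSucc n :: A, x :: xs => dotN (Nat.sub acc (Nat.mul (Nat.succ n) x)) A xs
  | acc, _, _ => acc

/-- accumulation of a linear form against packed indicators, restricted by `c` -/
def dotNc (c : Nat) : Nat → List Int → List Nat → Nat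
  | acc, Int.ofNat n :: A, x :: xs =>
      dotNc c (cond (Nat.beq n 0) acc (Nat.add acc (Nat.mul n (Nat.land c x)))) A xs
  | acc, Int.negSucc n :: A, x :: xs => dotNc c (Nat.sub acc (Nat.mul (Nat.succ n) (Nat.land c x))) A xs
  | acc, _, _ => acc

/-- accumulation of a quadratic form -/
def quadN (c : Nat) : Nat → List (List Int) → List Nat → Nat
  | acc, B :: Bs, x :: xs => quadN c (dotNc (Nat.land c x) acc B xs) Bs xs
  | acc, _, _ => acc

/-- accumulation of a cubic form -/
def cubN (c : Nat) : Nat → List (List (List Int)) → List Nat → Nat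
  | acc, T :: Ts, x :: xs => cubN c (quadN (Nat.land c x) acc T xs) Ts xs
  | acc, _, _ => acc

/-- vectors of the first rows -/
def thN (acc : Nat) (chi : List Nat) : Nat → List (List Int) → List Nat
  | q + 1, B :: Bs => dotN acc (B.drop q) chi :: thN acc chi q Bs
  | _, _ => []

/-- initial vectors of the front vertices -/
def dN (acc ones : Nat) (chi : List Nat) : Nat → List (List Int) → List (List (List Int)) → List Nat
  | q + 1, B :: Bs, T :: Ts =>
      quadN ones (dotN acc (B.drop q) chi) (T.drop q) chi :: dN acc ones chi q Bs Ts
  | _, _, _ => []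

/-- literal part of the level data -/
structure Lit where
  /-- mask -/
  nb : Nat
  /-- length of the row in bits -/
  r : Nat
  /-- mask of the row -/
  rm : Nat
  /-- packed update -/
  t : Nat

/-- level data -/
def mkLvs (acc : Nat) (chi : List Nat) : Nat → List Lit → List (List (List Int)) → List Lv
  | q + 1, l :: ls, T :: Ts => ⟨l.nb, l.r, l.rm, l.t, thN acc chi q T⟩ :: mkLvs acc chi q ls Ts
  | _, _, _ => []

/-- Data of an instance. -/
structure Dat where
  /-- number of front vertices -/
  p : Nat
  /-- number of suffix vertices -/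
  r : Nat
  /-- width of the scalar registers -/
  wa : Nat
  /-- width of the vector fields minus one -/
  w : Nat
  /-- bias of scalar registers -/
  β : Nat
  /-- bias of vector registers -/
  β' : Nat
  /-- the bound -/
  Γ : Nat
  /-- masks of the later neighbours -/
  adj : List Nat
  /-- linear coefficients -/
  A : List Int
  /-- quadratic coefficients -/
  Bs : List (List Int)
  /-- cubic coefficients -/
  Ts : List (List (List Int))
  /-- number of independent sets of the suffix -/
  N : Nat
  /-- packed all-one vector -/
  ones : Nat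
  /-- `2 ^ w * ones` -/
  HH : Nat
  /-- packed indicator vectors -/
  chi : List Nat
  /-- `β' * ones` -/
  acc : Nat
  /-- literal part of the levels -/
  lits : List Lit
  /-- initial registers -/
  RA : Nat
  /-- initial registers -/
  RQ : Nat
  /-- initial registers -/
  V0 : Nat
  /-- initial registers -/
  D0 : List Nat

/-- the levels of an instance -/
def Dat.lvs (d : Dat) : List Lv := mkLvs d.acc d.chi d.p d.lits d.Ts

/-- The recursion restricted to the nodes at depth `k` with code in `[lo, hi)`. -/
def goR (w msk β2 H ones HH lo hi : Nat) :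
    Nat → List Lv → Nat → Nat → Nat → Nat → Nat → Nat → Nat → List Nat → Bool
  | 0, l, c, F, A, Q, S, E, V, D =>
      cond (and (Nat.ble lo c) (Nat.blt c hi)) (go w msk β2 H ones HH l F A Q S E V D) true
  | _ + 1, [], _, F, A, Q, S, E, V, D => go w msk β2 H ones HH [] F A Q S E V D
  | k + 1, lv :: l, c, F, A, Q, S, E, V, D =>
      cond (goR w msk β2 H ones HH lo hi k l (2 * c) (Nat.shiftRight F 1) (Nat.shiftRight A w)
          (Nat.shiftRight Q lv.r) S E V (tl D))
        (cond (Nat.beq (Nat.land F 1) 1) true
          (goR w msk β2 H ones HH lo hi k l (2 * c + 1) (Nat.lor (Nat.shiftRight F 1) lv.nb)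
            (Nat.add (Nat.shiftRight A w) (Nat.land Q lv.rm))
            (Nat.add (Nat.shiftRight Q lv.r) lv.t)
            (Nat.sub (Nat.add S E) (Nat.land A msk)) (Nat.add E β2)
            (Nat.add V (hd D)) (zadd lv.th (tl D))))
        false

/-- one chunk of the computation -/
def chunk (d : Dat) (k lo hi : Nat) : Bool :=
  goR d.wa (2 ^ d.wa - 1) (d.β + d.β') (2 ^ d.w) d.ones d.HH lo hi k d.lvs 0 0 d.RA d.RQ
    (d.Γ + d.β') (d.β + d.β') d.V0 d.D0

end Dadc30.Pk

end
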