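import Mathlib

/-!
# Packed vectors: Horner encodings of integer lists, and cubic polynomials in nested lists
-/

set_option autoImplicit false

namespace Dadc30.Pk

/-- Horner value of a list of integers in base `X`. -/
def enc (X : ℤ) : List ℤ → ℤ
  | [] => 0
  | x :: l => x + X * enc X l

@[simp] lemma enc_nil (X : ℤ) : enc X [] = 0 := rfl
@[simp] lemma enc_cons (X x : ℤ) (l : List ℤ) : enc X (x :: l) = x + X * enc X l := rfl

lemma enc_append (X : ℤ) (l m : List ℤ) : enc X (l ++ m) = enc X l + X ^ l.length * enc X m := by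
  induction l with
  | nil => simp
  | cons x l ih =>
    rw [List.cons_append, enc_cons, enc_cons, ih, List.length_cons, pow_succ]
    ring

lemma enc_map_add {ι : Type*} (X : ℤ) (l : List ι) (f g : ι → ℤ) :
    enc X (l.map fun i => f i + g i) = enc X (l.map f) + enc X (l.map g) := by
  induction l with
  | nil => simp
  | cons x l ih =>
    rw [List.map_cons, List.map_cons, List.map_cons, enc_cons, enc_cons, enc_cons, ih]
    ring

lemma enc_map_mul {ι : Type*} (X c : ℤ) (l : List ι) (f : ι → ℤ) :
    enc X (l.map fun i => c * f i) = c * enc X (l.map f) := by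
  induction l with
  | nil => simp
  | cons x l ih =>
    rw [List.map_cons, List.map_cons, enc_cons, enc_cons, ih]
    ring

lemma enc_map_sub {ι : Type*} (X : ℤ) (l : List ι) (f g : ι → ℤ) :
    enc X (l.map fun i => f i - g i) = enc X (l.map f) - enc X (l.map g) := by
  induction l with
  | nil => simp
  | cons x l ih =>
    rw [List.map_cons, List.map_cons, List.map_cons, enc_cons, enc_cons, enc_cons, ih]
    ring

lemma enc_zipWith (X : ℤ) : ∀ l m : List ℤ, l.length = m.length →
    enc X (List.zipWith (· + ·) l m) = enc X l + enc X m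
  | [], [], _ => by simp
  | x :: l, y :: m, h => by
    rw [List.zipWith_cons_cons, enc_cons, enc_cons, enc_cons,
      enc_zipWith X l m (by simpa using h)]
    ring
  | [], _ :: _, h => by simp at h
  | _ :: _, [], h => by simp at h

/-- digits in the range `[0, X)` -/
def Dig (X : ℤ) (l : List ℤ) : Prop := ∀ x ∈ l, 0 ≤ x ∧ x < X

lemma enc_bound {X : ℤ} (hX : 0 < X) : ∀ {l : List ℤ}, Dig X l →
    0 ≤ enc X l ∧ enc X l < X ^ l.length
  | [], _ => by simp
  | x :: l, h => by
    obtain ⟨h1, h2⟩ := enc_bound hX (l := l) (fun y hy => h y (List.mem_cons_of_mem _ hy))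
    obtain ⟨h3, h4⟩ := h x List.mem_cons_self
    rw [enc_cons, List.length_cons, pow_succ]
    refine ⟨by positivity, ?_⟩
    have h5 : enc X l ≤ X ^ l.length - 1 := by omega
    nlinarith

lemma enc_mod {X : ℤ} (hX : 0 < X) {x : ℤ} {l : List ℤ} (hx : 0 ≤ x ∧ x < X) :
    enc X (x :: l) % X = x ∧ enc X (x :: l) / X = enc X l := by
  rw [enc_cons]
  refine ⟨?_, ?_⟩
  · rw [Int.add_mul_emod_self_left]
    exact Int.emod_eq_of_lt hx.1 hx.2
  · rw [Int.add_mul_ediv_left _ _ hX.ne', Int.ediv_eq_zero_of_lt hx.1 hx.2, zero_add]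

/-! ### Natural number encodings and bitwise and -/

/-- Horner value of a list of naturals in base `2 ^ w`. -/
def encN (w : ℕ) : List ℕ → ℕ
  | [] => 0
  | x :: l => x + 2 ^ w * encN w l

lemma encN_cast (w : ℕ) (l : List ℕ) :
    (encN w l : ℤ) = enc (2 ^ w) (List.map (fun x : ℕ => (x : ℤ)) l) := by
  induction l with
  | nil => rfl
  | cons x l ih =>
    rw [encN, List.map_cons, enc_cons, ← ih]
    push_cast
    ring

lemma and_split (w a b c d : ℕ) (ha : a < 2 ^ w) (hc : c < 2 ^ w) :
    (a + 2 ^ w * b) &&& (c + 2 ^ w * d) = (a &&& c) + 2 ^ w * (b &&& d) := by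
  apply Nat.eq_of_testBit_eq
  intro i
  have hac : a &&& c < 2 ^ w := Nat.and_lt_two_pow _ hc
  rw [Nat.testBit_and, add_comm a, add_comm c, add_comm (a &&& c),
    Nat.testBit_two_pow_mul_add _ ha, Nat.testBit_two_pow_mul_add _ hc,
    Nat.testBit_two_pow_mul_add _ hac]
  split_ifs
  · rw [Nat.testBit_and]
  · rw [Nat.testBit_and]

lemma encN_and (w : ℕ) : ∀ l m : List ℕ, l.length = m.length → (∀ x ∈ l, x < 2 ^ w) →
    (∀ x ∈ m, x < 2 ^ w) → encN w l &&& encN w m = encN w (List.zipWith (· &&& ·) l m)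
  | [], [], _, _, _ => by simp [encN]
  | x :: l, y :: m, h, hl, hm => by
    rw [encN, encN, List.zipWith_cons_cons, encN,
      and_split _ _ _ _ _ (hl x List.mem_cons_self) (hm y List.mem_cons_self),
      encN_and w l m (by simpa using h) (fun z hz => hl z (List.mem_cons_of_mem _ hz))
        (fun z hz => hm z (List.mem_cons_of_mem _ hz))]
  | [], _ :: _, h, _, _ => by simp at h
  | _ :: _, [], h, _, _ => by simp at h

lemma encN_inj {w : ℕ} : ∀ {l m : List ℕ}, l.length = m.length → (∀ x ∈ l, x < 2 ^ w) →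
    (∀ x ∈ m, x < 2 ^ w) → encN w l = encN w m → l = m
  | [], [], _, _, _, _ => rfl
  | x :: l, y :: m, h, hl, hm, he => by
    rw [encN, encN] at he
    have hx := hl x List.mem_cons_self
    have hy := hm y List.mem_cons_self
    have h1 : x = y := by
      have := congrArg (· % 2 ^ w) he
      simpa [Nat.add_mul_mod_self_left, Nat.mod_eq_of_lt hx, Nat.mod_eq_of_lt hy] using this
    subst h1
    have h2 : encN w l = encN w m := by
      have h3 : 2 ^ w * encN w l = 2 ^ w * encN w m := by omega
      exact Nat.eq_of_mul_eq_mul_left (by positivity) h3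
    rw [encN_inj (by simpa using h) (fun z hz => hl z (List.mem_cons_of_mem _ hz))
        (fun z hz => hm z (List.mem_cons_of_mem _ hz)) h2]
  | [], _ :: _, h, _, _, _ => by simp at h
  | _ :: _, [], h, _, _, _ => by simp at h

/-- The sign bit test. -/
lemma sign_test {w : ℕ} {l : List ℕ} (hl : ∀ x ∈ l, x < 2 ^ (w + 1))
    (h : encN (w + 1) l &&& encN (w + 1) (List.replicate l.length (2 ^ w)) =
      encN (w + 1) (List.replicate l.length (2 ^ w))) : ∀ x ∈ l, 2 ^ w ≤ x := by
  have hp : (2 : ℕ) ^ w < 2 ^ (w + 1) := Nat.pow_lt_pow_right (by norm_num) (Nat.lt_succ_self w)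
  have hr : ∀ x ∈ List.replicate l.length (2 ^ w), x < 2 ^ (w + 1) := by
    intro x hx
    rw [List.eq_of_mem_replicate hx]
    exact hp
  rw [encN_and (w + 1) l _ (by simp) hl hr] at h
  have h2 := encN_inj (w := w + 1) (l := List.zipWith (· &&& ·) l (List.replicate l.length (2 ^ w)))
    (m := List.replicate l.length (2 ^ w)) (by simp) (by
      intro x hx
      rw [List.mem_iff_getElem] at hx
      obtain ⟨i, hi, rfl⟩ := hx
      rw [List.getElem_zipWith]
      exact Nat.and_lt_two_pow _ (hr _ (List.getElem_mem _))) hr h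
  intro x hx
  obtain ⟨i, hi, rfl⟩ := List.mem_iff_getElem.mp hx
  have h3 : (List.zipWith (· &&& ·) l (List.replicate l.length (2 ^ w)))[i]'(by simpa using hi) =
      (List.replicate l.length (2 ^ w))[i]'(by simpa using hi) := by
    congr 1
  rw [List.getElem_zipWith, List.getElem_replicate] at h3
  by_contra hcon
  push Not at hcon
  have h4 : (l[i] &&& 2 ^ w).testBit w = true := by
    rw [h3]
    simp
  rw [Nat.testBit_and, Nat.testBit_lt_two_pow hcon] at h4
  simp at h4

/-! ### Cubic polynomials in nested lists -/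

/-- linear form -/
def lin : List ℤ → List ℤ → ℤ
  | a :: A, x :: X => a * x + lin A X
  | _, _ => 0

/-- quadratic form, strictly upper triangular -/
def quad : List (List ℤ) → List ℤ → ℤ
  | B :: Bs, x :: X => x * lin B X + quad Bs X
  | _, _ => 0

/-- cubic form, strictly upper triangular -/
def cub : List (List (List ℤ)) → List ℤ → ℤ
  | T :: Ts, x :: X => x * quad T X + cub Ts X
  | _, _ => 0

/-- shape of a triangular list -/
def ShQ : ℕ → List (List ℤ) → Prop
  | 0, [] => True
  | q + 1, B :: Bs => B.length = q ∧ ShQ q Bs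
  | _, _ => False

/-- shape of a tetrahedral list -/
def ShT : ℕ → List (List (List ℤ)) → Prop
  | 0, [] => True
  | q + 1, T :: Ts => ShQ q T ∧ ShT q Ts
  | _, _ => False

/-- addition of lists -/
def ladd (A B : List ℤ) : List ℤ := List.zipWith (· + ·) A B

/-- addition of triangular lists -/
def qadd (A B : List (List ℤ)) : List (List ℤ) := List.zipWith ladd A B

lemma lin_ladd : ∀ (A B X : List ℤ), A.length = B.length → lin (ladd A B) X = lin A X + lin B X
  | [], [], X, _ => by simp [ladd, lin]
  | a :: A, b :: B, [], _ => by simp [ladd, lin]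
  | a :: A, b :: B, x :: X, h => by
    have ih := lin_ladd A B X (by simpa using h)
    unfold ladd at ih ⊢
    rw [List.zipWith_cons_cons, lin, lin, lin, ih]
    ring
  | [], _ :: _, _, h => by simp at h
  | _ :: _, [], _, h => by simp at h

lemma ladd_length {A B : List ℤ} (h : A.length = B.length) : (ladd A B).length = A.length := by
  unfold ladd
  simp [h]

lemma ShQ.qadd : ∀ {q : ℕ} {A B : List (List ℤ)}, ShQ q A → ShQ q B → ShQ q (qadd A B)
  | 0, [], [], _, _ => by trivial
  | q + 1, a :: A, b :: B, h, h' => by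
    obtain ⟨h1, h2⟩ := h
    obtain ⟨h3, h4⟩ := h'
    have ih := ShQ.qadd h2 h4
    unfold Pk.qadd at ih ⊢
    rw [List.zipWith_cons_cons]
    exact ⟨by rw [ladd_length (by rw [h1, h3])]; exact h1, ih⟩
  | 0, _ :: _, _, h, _ => by cases h
  | 0, [], _ :: _, _, h => by cases h
  | _ + 1, [], _, h, _ => by cases h
  | _ + 1, _ :: _, [], _, h => by cases h

lemma quad_qadd : ∀ {q : ℕ} {A B : List (List ℤ)}, ShQ q A → ShQ q B → ∀ X : List ℤ,
    quad (qadd A B) X = quad A X + quad B X
  | 0, [], [], _, _, X => by simp [qadd, quad]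
  | q + 1, a :: A, b :: B, h, h', [] => by simp [qadd, quad]
  | q + 1, a :: A, b :: B, h, h', x :: X => by
    obtain ⟨h1, h2⟩ := h
    obtain ⟨h3, h4⟩ := h'
    have ih := quad_qadd h2 h4 X
    unfold qadd at ih ⊢
    rw [List.zipWith_cons_cons, quad, quad, quad, ih, lin_ladd _ _ _ (by rw [h1, h3])]
    ring
  | 0, _ :: _, _, h, _, _ => by cases h
  | 0, [], _ :: _, _, h, _ => by cases h
  | _ + 1, [], _, h, _, _ => by cases h
  | _ + 1, _ :: _, [], _, h, _ => by cases h

lemma ShQ.len_flatten : ∀ {q : ℕ} {A B : List (List ℤ)}, ShQ q A → ShQ q B →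
    A.flatten.length = B.flatten.length
  | 0, [], [], _, _ => rfl
  | q + 1, a :: A, b :: B, h, h' => by
    obtain ⟨h1, h2⟩ := h
    obtain ⟨h3, h4⟩ := h'
    rw [List.flatten_cons, List.flatten_cons, List.length_append, List.length_append,
      ShQ.len_flatten h2 h4, h1, h3]
  | 0, _ :: _, _, h, _ => by cases h
  | 0, [], _ :: _, _, h => by cases h
  | _ + 1, [], _, h, _ => by cases h
  | _ + 1, _ :: _, [], _, h => by cases h

lemma enc_flatten_qadd (X : ℤ) : ∀ {q : ℕ} {A B : List (List ℤ)}, ShQ q A → ShQ q B →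
    enc X (qadd A B).flatten = enc X A.flatten + enc X B.flatten
  | 0, [], [], _, _ => by simp [qadd]
  | q + 1, a :: A, b :: B, h, h' => by
    obtain ⟨h1, h2⟩ := h
    obtain ⟨h3, h4⟩ := h'
    have ih := enc_flatten_qadd X h2 h4
    unfold qadd at ih ⊢
    rw [List.zipWith_cons_cons, List.flatten_cons, List.flatten_cons, List.flatten_cons,
      enc_append, enc_append, enc_append, ih, ladd_length (by rw [h1, h3]), h1, h3]
    unfold ladd
    rw [enc_zipWith X a b (by rw [h1, h3])]
    ring
  | 0, _ :: _, _, h, _ => by cases h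
  | 0, [], _ :: _, _, h => by cases h
  | _ + 1, [], _, h, _ => by cases h
  | _ + 1, _ :: _, [], _, h => by cases h

/-! ### Masses -/

/-- sum of absolute values -/
def absL (A : List ℤ) : ℤ := (A.map fun a => |a|).sum

/-- sum of absolute values -/
def absQ (A : List (List ℤ)) : ℤ := (A.map absL).sum

/-- sum of absolute values -/
def absT (A : List (List (List ℤ))) : ℤ := (A.map absQ).sum

lemma absL_nonneg (A : List ℤ) : 0 ≤ absL A := by
  refine List.sum_nonneg (fun x hx => ?_)
  obtain ⟨a, -, rfl⟩ := List.mem_map.mp hx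
  exact abs_nonneg a

lemma absQ_nonneg (A : List (List ℤ)) : 0 ≤ absQ A := by
  refine List.sum_nonneg (fun x hx => ?_)
  obtain ⟨a, -, rfl⟩ := List.mem_map.mp hx
  exact absL_nonneg a

lemma absT_nonneg (A : List (List (List ℤ))) : 0 ≤ absT A := by
  refine List.sum_nonneg (fun x hx => ?_)
  obtain ⟨a, -, rfl⟩ := List.mem_map.mp hx
  exact absQ_nonneg a

lemma abs_le_absL {A : List ℤ} {a : ℤ} (h : a ∈ A) : |a| ≤ absL A := by
  refine List.single_le_sum ?_ _ (List.mem_map.mpr ⟨a, h, rfl⟩)
  intro x hx
  obtain ⟨a, -, rfl⟩ := List.mem_map.mp hx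
  exact abs_nonneg a

lemma abs_le_absQ {A : List (List ℤ)} {a : ℤ} (h : a ∈ A.flatten) : |a| ≤ absQ A := by
  obtain ⟨l, hl, ha⟩ := List.mem_flatten.mp h
  refine (abs_le_absL ha).trans (List.single_le_sum ?_ _ (List.mem_map.mpr ⟨l, hl, rfl⟩))
  intro x hx
  obtain ⟨a, -, rfl⟩ := List.mem_map.mp hx
  exact absL_nonneg a

lemma absL_cons (a : ℤ) (A : List ℤ) : absL (a :: A) = |a| + absL A := by
  simp [absL]

lemma absQ_cons (a : List ℤ) (A : List (List ℤ)) : absQ (a :: A) = absL a + absQ A := by
  simp [absQ]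

lemma absT_cons (a : List (List ℤ)) (A : List (List (List ℤ))) :
    absT (a :: A) = absQ a + absT A := by
  simp [absT]

lemma absL_ladd : ∀ (A B : List ℤ), absL (ladd A B) ≤ absL A + absL B
  | [], B => by
    have := absL_nonneg B
    simpa [ladd, absL] using this
  | a :: A, [] => by
    have := absL_nonneg (a :: A)
    simpa [ladd, absL] using this
  | a :: A, b :: B => by
    have ih := absL_ladd A B
    unfold ladd at ih ⊢
    rw [List.zipWith_cons_cons, absL_cons, absL_cons, absL_cons]
    linarith [abs_add_le a b]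

lemma absQ_qadd : ∀ (A B : List (List ℤ)), absQ (qadd A B) ≤ absQ A + absQ B
  | [], B => by
    have := absQ_nonneg B
    simpa [qadd, absQ] using this
  | a :: A, [] => by
    have := absQ_nonneg (a :: A)
    simpa [qadd, absQ] using this
  | a :: A, b :: B => by
    have ih := absQ_qadd A B
    unfold qadd at ih ⊢
    rw [List.zipWith_cons_cons, absQ_cons, absQ_cons, absQ_cons]
    linarith [absL_ladd a b]

end Dadc30.Pk
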