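import Pool.Agent.Lib.MP_dadc30_coR.Pk.Enc
import Pool.Agent.Lib.MP_dadc30_coR.Pk.Base

/-!
# The packed recursion over the front vertices and its soundness
-/

set_option autoImplicit false

namespace Dadc30.Pk

lemma go_nil (w msk β2 H ones HH F A Q S E V : ℕ) (D : List ℕ) :
    go w msk β2 H ones HH [] F A Q S E V D =
      Nat.beq (((H + S) * ones - V) &&& HH) HH := rfl

lemma go_cons (w msk β2 H ones HH F A Q S E V : ℕ) (D : List ℕ) (lv : Lv) (l : List Lv) :
    go w msk β2 H ones HH (lv :: l) F A Q S E V D = true ↔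
      go w msk β2 H ones HH l (F >>> 1) (A >>> w) (Q >>> lv.r) S E V (tl D) = true ∧
      (F % 2 = 0 → go w msk β2 H ones HH l (F >>> 1 ||| lv.nb) (A >>> w + (Q &&& lv.rm))
        (Q >>> lv.r + lv.t) (S + E - (A &&& msk)) (E + β2) (V + hd D) (zadd lv.th (tl D)) = true) := by
  have h0 : go w msk β2 H ones HH (lv :: l) F A Q S E V D =
      Bool.rec (motive := fun _ => Bool)
        (Bool.rec (motive := fun _ => Bool) false
          (go w msk β2 H ones HH l (F >>> 1 ||| lv.nb) (A >>> w + (Q &&& lv.rm))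
        (Q >>> lv.r + lv.t) (S + E - (A &&& msk)) (E + β2) (V + hd D) (zadd lv.th (tl D)))
          (go w msk β2 H ones HH l (F >>> 1) (A >>> w) (Q >>> lv.r) S E V (tl D)))
        (go w msk β2 H ones HH l (F >>> 1) (A >>> w) (Q >>> lv.r) S E V (tl D))
        (Nat.beq (F &&& 1) 1) := rfl
  rw [h0, Nat.and_one_is_mod]
  rcases Nat.mod_two_eq_zero_or_one F with h | h
  · rw [h]
    have h1 : Nat.beq 0 1 = false := rfl
    rw [h1]
    cases go w msk β2 H ones HH l (F >>> 1) (A >>> w) (Q >>> lv.r) S E V (tl D)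
    · simp
    · simp
  · rw [h]
    have h1 : Nat.beq 1 1 = true := rfl
    rw [h1]
    simp

/-- Legal choices. -/
def Leg : List ℕ → ℕ → List ℤ → Prop
  | nb :: nbs, F, x :: X => (x = 0 ∧ Leg nbs (F >>> 1) X) ∨
      (x = 1 ∧ F % 2 = 0 ∧ Leg nbs (F >>> 1 ||| nb) X)
  | [], _, [] => True
  | _, _, _ => False

/-- accumulated bias of the value vector -/
def bV (β' : ℤ) : ℕ → ℤ
  | 0 => β'
  | m + 1 => bV β' m + (m + 1) * β'

lemma bV_ge {β' : ℤ} (h : 0 ≤ β') : ∀ m, β' ≤ bV β' m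
  | 0 => le_rfl
  | m + 1 => by
    have ih := bV_ge h m
    change β' ≤ bV β' m + (m + 1) * β'
    nlinarith [show (0 : ℤ) ≤ (m + 1) * β' by positivity]

variable {ι : Type*}

/-- vectors as functions -/
def IsV (w : ℕ) (Us : List ι) (b : ℤ) (n : ℕ) (f : ι → ℤ) : Prop :=
  (n : ℤ) = enc (2 ^ w) (Us.map fun U => f U + b)

/-- Relation between the level data and the semantic data. -/
def LvR (wa w : ℕ) (Us : List ι) (β' : ℤ) : ℕ → List Lv → List (List (List ℤ)) →
    List (List (ι → ℤ)) → Prop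
  | 0, [], [], [] => True
  | q + 1, lv :: lvs, T :: Ts, θ :: θs => lv.r = wa * q ∧ lv.rm = 2 ^ (wa * q) - 1 ∧ ShQ q T ∧
      (∃ g : ℤ, (lv.t : ℤ) = enc (2 ^ wa) T.flatten + (2 ^ wa) ^ T.flatten.length * g) ∧
      List.Forall₂ (IsV w Us β') lv.th θ ∧ θ.length = q ∧ LvR wa w Us β' q lvs Ts θs
  | _, _, _, _ => False

/-- pointwise evaluation -/
def ev (U : ι) (δ : List (ι → ℤ)) : List ℤ := δ.map fun f => f U

/-- pointwise sum -/
def vadd (δ θ : List (ι → ℤ)) : List (ι → ℤ) := List.zipWith (fun f g => fun U => f U + g U) δ θ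

lemma ev_vadd (U : ι) (δ θ : List (ι → ℤ)) : ev U (vadd δ θ) = ladd (ev U δ) (ev U θ) := by
  unfold ev vadd ladd
  rw [List.map_zipWith, List.zipWith_map]

lemma zadd_spec {w : ℕ} {Us : List ι} {b b' : ℤ} : ∀ {l : List ℕ} {θ : List (ι → ℤ)} {D : List ℕ}
    {δ : List (ι → ℤ)}, List.Forall₂ (IsV w Us b') l θ → List.Forall₂ (IsV w Us b) D δ →
    δ.length = θ.length → List.Forall₂ (IsV w Us (b + b')) (zadd l D) (vadd δ θ)
  | [], [], [], [], _, _, _ => by
    change List.Forall₂ _ [] (List.zipWith _ [] [])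
    rw [List.zipWith_nil_left]
    exact List.Forall₂.nil
  | x :: l, f :: θ, d :: D, g :: δ, h1, h2, h3 => by
    cases h1 with
    | cons hx hl =>
      cases h2 with
      | cons hd' hD =>
        change List.Forall₂ _ ((d + x) :: zadd l D) (List.zipWith _ (g :: δ) (f :: θ))
        rw [List.zipWith_cons_cons]
        refine List.Forall₂.cons ?_ (zadd_spec hl hD (by simpa using h3))
        unfold IsV at hx hd' ⊢
        push_cast
        rw [hx, hd', ← enc_map_add]
        congr 1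
        refine List.map_congr_left (fun U _ => ?_)
        ring
  | [], f :: θ, _, _, h1, _, _ => by cases h1
  | x :: l, [], _, _, h1, _, _ => by cases h1
  | _, _, [], g :: δ, _, h2, _ => by cases h2
  | _, _, d :: D, [], _, h2, _ => by cases h2
  | [], [], d :: D, g :: δ, _, _, h3 => by simp at h3
  | x :: l, f :: θ, [], [], _, _, h3 => by simp at h3

lemma hd_spec {w : ℕ} {Us : List ι} {b : ℤ} {D : List ℕ} {f : ι → ℤ} {δ : List (ι → ℤ)}
    (h : List.Forall₂ (IsV w Us b) D (f :: δ)) : IsV w Us b (hd D) f ∧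
      List.Forall₂ (IsV w Us b) (tl D) δ := by
  cases h with
  | cons h1 h2 => exact ⟨h1, h2⟩

/-- register of the linear part: reading and shifting -/
lemma readA {w : ℕ} {a b : ℤ} {A : List ℤ} {RA : ℕ} (h : (RA : ℤ) = enc (2 ^ w) ((a :: A).map (· + b)))
    (ha : 0 ≤ a + b ∧ a + b < 2 ^ w) :
    ((RA &&& (2 ^ w - 1) : ℕ) : ℤ) = a + b ∧ ((RA >>> w : ℕ) : ℤ) = enc (2 ^ w) (A.map (· + b)) := by
  have hX : (0 : ℤ) < 2 ^ w := by positivity
  rw [List.map_cons] at h
  obtain ⟨h1, h2⟩ := enc_mod hX (l := A.map (· + b)) ha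
  rw [← h] at h1 h2
  refine ⟨?_, ?_⟩
  · rw [Nat.and_two_pow_sub_one_eq_mod, Int.natCast_mod]
    push_cast
    exact h1
  · rw [Nat.shiftRight_eq_div_pow, Int.natCast_div]
    push_cast
    exact h2

/-- register of the quadratic part: reading and shifting -/
lemma readQ {w q : ℕ} {b : ℤ} {B R : List ℤ} {RQ : ℕ} {g : ℤ} (hB : B.length = q)
    (h : (RQ : ℤ) = enc (2 ^ w) ((B ++ R).map (· + b)) + (2 ^ w) ^ (B ++ R).length * g)
    (hd : ∀ x ∈ B, 0 ≤ x + b ∧ x + b < 2 ^ w) :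
    ((RQ &&& (2 ^ (w * q) - 1) : ℕ) : ℤ) = enc (2 ^ w) (B.map (· + b)) ∧
      ((RQ >>> (w * q) : ℕ) : ℤ) = enc (2 ^ w) (R.map (· + b)) + (2 ^ w) ^ R.length * g := by
  have hX : (0 : ℤ) < 2 ^ w := by positivity
  have hb := enc_bound hX (l := B.map (· + b)) (by
    intro y hy
    obtain ⟨x, hx, rfl⟩ := List.mem_map.mp hy
    exact hd x hx)
  rw [List.length_map, hB] at hb
  have h1 : (RQ : ℤ) = enc (2 ^ w) (B.map (· + b)) +
      (2 ^ w) ^ q * (enc (2 ^ w) (R.map (· + b)) + (2 ^ w) ^ R.length * g) := by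
    rw [h, List.map_append, enc_append, List.length_append, List.length_map, hB, pow_add]
    ring
  have hp : (0 : ℤ) < (2 ^ w) ^ q := by positivity
  refine ⟨?_, ?_⟩
  · rw [Nat.and_two_pow_sub_one_eq_mod, Int.natCast_mod]
    push_cast
    rw [pow_mul, h1, Int.add_mul_emod_self_left]
    exact Int.emod_eq_of_lt hb.1 hb.2
  · rw [Nat.shiftRight_eq_div_pow, Int.natCast_div]
    push_cast
    rw [pow_mul, h1, Int.add_mul_ediv_left _ _ hp.ne', Int.ediv_eq_zero_of_lt hb.1 hb.2, zero_add]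

/-- final test -/
lemma fin_spec {w : ℕ} {Us : List ι} {S V ones : ℕ} {s bv : ℤ} {v : ι → ℤ}
    (hones : (ones : ℤ) = enc (2 ^ (w + 1)) (Us.map fun _ => 1))
    (hS : (S : ℤ) = s + bv) (hV : IsV (w + 1) Us bv V v)
    (hb : ∀ U ∈ Us, |s - v U| < 2 ^ w)
    (h : Nat.beq (((2 ^ w + S) * ones - V) &&& (2 ^ w * ones)) (2 ^ w * ones) = true) :
    ∀ U ∈ Us, v U ≤ s := by
  have hX : (0 : ℤ) < 2 ^ (w + 1) := by positivity
  let zs : List ℕ := Us.map fun U => (2 ^ w + (s - v U)).toNat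
  have hz : ∀ U ∈ Us, ((2 ^ w + (s - v U)).toNat : ℤ) = 2 ^ w + (s - v U) := by
    intro U hU
    have := abs_lt.mp (hb U hU)
    rw [Int.toNat_of_nonneg (by linarith)]
  have e1 : (encN (w + 1) zs : ℤ) = (((2 ^ w + S) * ones : ℕ) : ℤ) - (V : ℤ) := by
    rw [encN_cast]
    have h1 : List.map (fun x : ℕ => (x : ℤ)) zs = Us.map fun U => (2 ^ w + (s - v U)) := by
      rw [List.map_map]
      refine List.map_congr_left (fun U hU => ?_)
      exact hz U hU
    rw [h1]
    push_cast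
    rw [hS, hones, hV, ← enc_map_mul, ← enc_map_sub]
    congr 1
    refine List.map_congr_left (fun U _ => ?_)
    ring
  have e2 : encN (w + 1) zs = (2 ^ w + S) * ones - V := by
    have h2 : (V : ℤ) ≤ (((2 ^ w + S) * ones : ℕ) : ℤ) := by
      have : (0 : ℤ) ≤ (encN (w + 1) zs : ℤ) := Int.natCast_nonneg _
      linarith
    have h3 : V ≤ (2 ^ w + S) * ones := by exact_mod_cast h2
    have h4 : (((2 ^ w + S) * ones - V : ℕ) : ℤ) = (((2 ^ w + S) * ones : ℕ) : ℤ) - (V : ℤ) :=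
      Nat.cast_sub h3
    rw [← h4] at e1
    exact_mod_cast e1
  have e3 : encN (w + 1) (List.replicate zs.length (2 ^ w)) = 2 ^ w * ones := by
    have h1 : (encN (w + 1) (List.replicate zs.length (2 ^ w)) : ℤ) = ((2 ^ w * ones : ℕ) : ℤ) := by
      rw [encN_cast]
      push_cast
      rw [hones, ← enc_map_mul]
      congr 1
      rw [List.map_replicate, List.length_map]
      push_cast
      rw [← List.map_const']
      refine List.map_congr_left (fun U _ => ?_)
      ring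
    exact_mod_cast h1
  have hdig : ∀ x ∈ zs, x < 2 ^ (w + 1) := by
    intro x hx
    obtain ⟨U, hU, rfl⟩ := List.mem_map.mp hx
    have h1 := abs_lt.mp (hb U hU)
    have h2 : ((2 ^ w + (s - v U)).toNat : ℤ) < 2 ^ (w + 1) := by
      rw [hz U hU, pow_succ]
      linarith
    exact_mod_cast h2
  have h5 := Nat.eq_of_beq_eq_true h
  rw [← e2, ← e3] at h5
  have h6 := sign_test hdig h5
  intro U hU
  have h7 := h6 _ (List.mem_map.mpr ⟨U, hU, rfl⟩)
  have h8 : (2 : ℤ) ^ w ≤ ((2 ^ w + (s - v U)).toNat : ℤ) := by exact_mod_cast h7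
  rw [hz U hU] at h8
  linarith

end Dadc30.Pk
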