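import Pool.Agent.Lib.MP_dadc30_coR.Pk.Tab

/-!
# The tables used by the kernel, and the main theorem of the packed check
-/

set_option autoImplicit false

namespace Dadc30.Pk

/-! ### Monotonicity of encodings -/

lemma enc_nonneg {X : ℤ} (hX : 0 ≤ X) : ∀ {l : List ℤ}, (∀ x ∈ l, 0 ≤ x) → 0 ≤ enc X l
  | [], _ => le_rfl
  | x :: l, h => by
    have h1 := enc_nonneg hX (l := l) (fun y hy => h y (List.mem_cons_of_mem _ hy))
    have h2 := h x List.mem_cons_self
    rw [enc_cons]
    positivity

lemma enc_map_mono {ι : Type*} {X : ℤ} (hX : 0 ≤ X) (l : List ι) (f g : ι → ℤ)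
    (h : ∀ i ∈ l, f i ≤ g i) : enc X (l.map f) ≤ enc X (l.map g) := by
  have h1 : 0 ≤ enc X (l.map fun i => g i - f i) := enc_nonneg hX (by
    intro x hx
    obtain ⟨i, hi, rfl⟩ := List.mem_map.mp hx
    linarith [h i hi])
  rw [enc_map_sub] at h1
  linarith

/-! ### Accumulators -/

section specs

variable {ι : Type*} {w : ℕ} {Us : List ι}

/-- one accumulation step -/
lemma acc_step {acc x : ℕ} {f κ : ι → ℤ} (a : ℤ) (ha : (acc : ℤ) = enc (2 ^ w) (Us.map f))
    (hx : Is01 w Us x κ) (hf : ∀ U ∈ Us, |a| ≤ f U) :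
    (∀ n : ℕ, a = n → ((acc + n * x : ℕ) : ℤ) = enc (2 ^ w) (Us.map fun U => f U + a * κ U)) ∧
    (∀ n : ℕ, a = Int.negSucc n →
      ((acc - (n + 1) * x : ℕ) : ℤ) = enc (2 ^ w) (Us.map fun U => f U + a * κ U)) := by
  have e1 : enc (2 ^ w) (Us.map fun U => f U + a * κ U) = acc + a * x := by
    rw [enc_map_add, enc_map_mul, ← ha, ← hx.2]
  refine ⟨fun n hn => ?_, fun n hn => ?_⟩
  · rw [e1, hn]
    push_cast
    ring
  · have h2 : (0 : ℤ) ≤ enc (2 ^ w) (Us.map fun U => f U + a * κ U) := enc_nonneg (by positivity) (by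
      intro y hy
      obtain ⟨U, hU, rfl⟩ := List.mem_map.mp hy
      have h3 := hf U hU
      have h4 := neg_abs_le a
      have h5 := abs_nonneg a
      rcases hx.1 U hU with h | h
      · rw [h]; linarith
      · rw [h]; linarith)
    have h6 : a = -((n : ℤ) + 1) := by rw [hn, Int.negSucc_eq]
    rw [e1] at h2
    have h7 : (((n + 1) * x : ℕ) : ℤ) ≤ acc := by
      push_cast
      rw [h6] at h2
      linarith
    have h8 : (n + 1) * x ≤ acc := by exact_mod_cast h7
    rw [Nat.cast_sub h8, e1, h6]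
    push_cast
    ring

lemma dotN_spec : ∀ {A : List ℤ} {xs : List ℕ} {acc : ℕ} {f : ι → ℤ} {τ : ι → List ℤ},
    ChiOk w Us τ xs → (acc : ℤ) = enc (2 ^ w) (Us.map f) → (∀ U ∈ Us, absL A ≤ f U) →
    (dotN acc A xs : ℤ) = enc (2 ^ w) (Us.map fun U => f U + lin A (τ U))
  | [], xs, acc, f, τ, _, ha, _ => by
    rw [dotN]
    · simpa [lin] using ha
    · simp
    · simp
  | a :: A, [], acc, f, τ, h, ha, _ => by
    have h1 : enc (2 ^ w) (Us.map fun U => f U + lin (a :: A) (τ U)) =
        enc (2 ^ w) (Us.map f) := by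
      congr 1
      refine List.map_congr_left (fun U hU => ?_)
      rw [h U hU]
      simp [lin]
    rw [h1, ← ha, dotN]
    · simp
    · simp
  | a :: A, x :: xs, acc, f, τ, h, ha, hf => by
    obtain ⟨h1, h2, h3⟩ := h
    have hx : Is01 w Us x (fun U => (τ U).headD 0) := by
      refine ⟨fun U hU => ?_, h2⟩
      obtain ⟨b, t, hb, hb2⟩ := h1 U hU
      beta_reduce
      rw [hb]
      exact hb2
    have hfa : ∀ U ∈ Us, |a| ≤ f U := fun U hU => by
      have := hf U hU
      rw [absL_cons] at this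
      linarith [absL_nonneg A]
    obtain ⟨s1, s2⟩ := acc_step a ha hx hfa
    have hf' : ∀ U ∈ Us, absL A ≤ f U + a * (τ U).headD 0 := by
      intro U hU
      have h4 := hf U hU
      rw [absL_cons] at h4
      have h5 := neg_abs_le a
      have h6 := abs_nonneg a
      rcases hx.1 U hU with h | h
      · beta_reduce at h
        rw [h]; linarith
      · beta_reduce at h
        rw [h]; linarith
    have e1 : ∀ U ∈ Us, f U + lin (a :: A) (τ U) =
        (f U + a * (τ U).headD 0) + lin A (τ U).tail := by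
      intro U hU
      obtain ⟨b, t, hb, hb2⟩ := h1 U hU
      rw [hb]
      simp only [lin, List.headD_cons, List.tail_cons]
      ring
    rw [List.map_congr_left e1]
    match a, s1, s2, hf' with
    | Int.ofNat n, s1, s2, hf' =>
      rw [dotN]
      refine dotN_spec h3 ?_ hf'
      have h4 := s1 n rfl
      rw [← h4]
      by_cases hn : n = 0
      · subst hn
        simp
      · have : Nat.beq n 0 = false := by
          obtain ⟨k, rfl⟩ := Nat.exists_eq_succ_of_ne_zero hn
          rfl
        rw [this]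
        rfl
    | Int.negSucc n, s1, s2, hf' =>
      rw [dotN]
      refine dotN_spec h3 ?_ hf'
      exact s2 n rfl

lemma dotNc_spec (hw : 0 < w) : ∀ {A : List ℤ} {xs : List ℕ} {acc c : ℕ} {f κ : ι → ℤ}
    {τ : ι → List ℤ}, Is01 w Us c κ →
    ChiOk w Us τ xs → (acc : ℤ) = enc (2 ^ w) (Us.map f) → (∀ U ∈ Us, absL A ≤ f U) →
    (dotNc c acc A xs : ℤ) = enc (2 ^ w) (Us.map fun U => f U + κ U * lin A (τ U))
  | [], xs, acc, c, f, κ, τ, _, _, ha, _ => by
    rw [dotNc]
    · simpa [lin] using ha
    · simp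
    · simp
  | a :: A, [], acc, c, f, κ, τ, _, h, ha, _ => by
    have h1 : enc (2 ^ w) (Us.map fun U => f U + κ U * lin (a :: A) (τ U)) =
        enc (2 ^ w) (Us.map f) := by
      congr 1
      refine List.map_congr_left (fun U hU => ?_)
      rw [h U hU]
      simp [lin]
    rw [h1, ← ha, dotNc]
    · simp
    · simp
  | a :: A, x :: xs, acc, c, f, κ, τ, hc, h, ha, hf => by
    obtain ⟨h1, h2, h3⟩ := h
    have hx0 : Is01 w Us x (fun U => (τ U).headD 0) := by
      refine ⟨fun U hU => ?_, h2⟩
      obtain ⟨b, t, hb, hb2⟩ := h1 U hU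
      beta_reduce
      rw [hb]
      exact hb2
    have hx := hc.and hw hx0
    have hfa : ∀ U ∈ Us, |a| ≤ f U := fun U hU => by
      have := hf U hU
      rw [absL_cons] at this
      linarith [absL_nonneg A]
    obtain ⟨s1, s2⟩ := acc_step a ha hx hfa
    have hf' : ∀ U ∈ Us, absL A ≤ f U + a * (κ U * (τ U).headD 0) := by
      intro U hU
      have h4 := hf U hU
      rw [absL_cons] at h4
      have h5 := neg_abs_le a
      have h6 := abs_nonneg a
      rcases hx.1 U hU with h | h
      · beta_reduce at h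
        rw [h]; linarith
      · beta_reduce at h
        rw [h]; linarith
    have e1 : ∀ U ∈ Us, f U + κ U * lin (a :: A) (τ U) =
        (f U + a * (κ U * (τ U).headD 0)) + κ U * lin A (τ U).tail := by
      intro U hU
      obtain ⟨b, t, hb, hb2⟩ := h1 U hU
      rw [hb]
      simp only [lin, List.headD_cons, List.tail_cons]
      ring
    rw [List.map_congr_left e1]
    match a, s1, s2, hf' with
    | Int.ofNat n, s1, s2, hf' =>
      rw [dotNc]
      refine dotNc_spec hw hc h3 ?_ hf'
      have h4 := s1 n rfl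
      rw [← h4]
      by_cases hn : n = 0
      · subst hn
        simp
      · have : Nat.beq n 0 = false := by
          obtain ⟨k, rfl⟩ := Nat.exists_eq_succ_of_ne_zero hn
          rfl
        rw [this]
        rfl
    | Int.negSucc n, s1, s2, hf' =>
      rw [dotNc]
      refine dotNc_spec hw hc h3 ?_ hf'
      exact s2 n rfl

lemma quadN_spec (hw : 0 < w) : ∀ {A : List (List ℤ)} {xs : List ℕ} {acc c : ℕ} {f κ : ι → ℤ}
    {τ : ι → List ℤ}, Is01 w Us c κ → (∀ U ∈ Us, Bits (τ U)) →
    ChiOk w Us τ xs → (acc : ℤ) = enc (2 ^ w) (Us.map f) → (∀ U ∈ Us, absQ A ≤ f U) →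
    (quadN c acc A xs : ℤ) = enc (2 ^ w) (Us.map fun U => f U + κ U * quad A (τ U))
  | [], xs, acc, c, f, κ, τ, _, _, _, ha, _ => by
    rw [quadN]
    · simpa [quad] using ha
    · simp
  | a :: A, [], acc, c, f, κ, τ, _, _, h, ha, _ => by
    have h1 : enc (2 ^ w) (Us.map fun U => f U + κ U * quad (a :: A) (τ U)) =
        enc (2 ^ w) (Us.map f) := by
      congr 1
      refine List.map_congr_left (fun U hU => ?_)
      rw [h U hU]
      simp [quad]
    rw [h1, ← ha, quadN]
    simp
  | a :: A, x :: xs, acc, c, f, κ, τ, hc, hbt, h, ha, hf => by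
    obtain ⟨h1, h2, h3⟩ := h
    have hx0 : Is01 w Us x (fun U => (τ U).headD 0) := by
      refine ⟨fun U hU => ?_, h2⟩
      obtain ⟨b, t, hb, hb2⟩ := h1 U hU
      beta_reduce
      rw [hb]
      exact hb2
    have hx := hc.and hw hx0
    have hfa : ∀ U ∈ Us, absL a ≤ f U := fun U hU => by
      have := hf U hU
      rw [absQ_cons] at this
      linarith [absQ_nonneg A]
    have s1 := dotNc_spec hw hx h3 ha hfa
    have hbt' : ∀ U ∈ Us, Bits (τ U).tail := by
      intro U hU y hy
      exact hbt U hU y (List.mem_of_mem_tail hy)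
    have hf' : ∀ U ∈ Us, absQ A ≤ f U + (κ U * (τ U).headD 0) * lin a (τ U).tail := by
      intro U hU
      have h4 := hf U hU
      rw [absQ_cons] at h4
      have h5 := abs_lin a _ (hbt' U hU)
      have h6 := neg_abs_le (lin a (τ U).tail)
      have h7 := absL_nonneg a
      rcases hx.1 U hU with h | h
      · beta_reduce at h
        rw [h]; linarith
      · beta_reduce at h
        rw [h]; linarith
    have e1 : ∀ U ∈ Us, f U + κ U * quad (a :: A) (τ U) =
        (f U + (κ U * (τ U).headD 0) * lin a (τ U).tail) + κ U * quad A (τ U).tail := by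
      intro U hU
      obtain ⟨b, t, hb, hb2⟩ := h1 U hU
      rw [hb]
      simp only [quad, List.headD_cons, List.tail_cons]
      ring
    rw [List.map_congr_left e1, quadN]
    exact quadN_spec hw hc hbt' h3 s1 hf'

lemma cubN_spec (hw : 0 < w) : ∀ {A : List (List (List ℤ))} {xs : List ℕ} {acc c : ℕ}
    {f κ : ι → ℤ} {τ : ι → List ℤ}, Is01 w Us c κ → (∀ U ∈ Us, Bits (τ U)) →
    ChiOk w Us τ xs → (acc : ℤ) = enc (2 ^ w) (Us.map f) → (∀ U ∈ Us, absT A ≤ f U) →
    (cubN c acc A xs : ℤ) = enc (2 ^ w) (Us.map fun U => f U + κ U * cub A (τ U))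
  | [], xs, acc, c, f, κ, τ, _, _, _, ha, _ => by
    rw [cubN]
    · simpa [cub] using ha
    · simp
  | a :: A, [], acc, c, f, κ, τ, _, _, h, ha, _ => by
    have h1 : enc (2 ^ w) (Us.map fun U => f U + κ U * cub (a :: A) (τ U)) =
        enc (2 ^ w) (Us.map f) := by
      congr 1
      refine List.map_congr_left (fun U hU => ?_)
      rw [h U hU]
      simp [cub]
    rw [h1, ← ha, cubN]
    simp
  | a :: A, x :: xs, acc, c, f, κ, τ, hc, hbt, h, ha, hf => by
    obtain ⟨h1, h2, h3⟩ := h
    have hx0 : Is01 w Us x (fun U => (τ U).headD 0) := by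
      refine ⟨fun U hU => ?_, h2⟩
      obtain ⟨b, t, hb, hb2⟩ := h1 U hU
      beta_reduce
      rw [hb]
      exact hb2
    have hx := hc.and hw hx0
    have hfa : ∀ U ∈ Us, absQ a ≤ f U := fun U hU => by
      have := hf U hU
      rw [absT_cons] at this
      linarith [absT_nonneg A]
    have hbt' : ∀ U ∈ Us, Bits (τ U).tail := by
      intro U hU y hy
      exact hbt U hU y (List.mem_of_mem_tail hy)
    have s1 := quadN_spec hw hx hbt' h3 ha hfa
    have hf' : ∀ U ∈ Us, absT A ≤ f U + (κ U * (τ U).headD 0) * quad a (τ U).tail := by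
      intro U hU
      have h4 := hf U hU
      rw [absT_cons] at h4
      have h5 := abs_quad a _ (hbt' U hU)
      have h6 := neg_abs_le (quad a (τ U).tail)
      have h7 := absQ_nonneg a
      rcases hx.1 U hU with h | h
      · beta_reduce at h
        rw [h]; linarith
      · beta_reduce at h
        rw [h]; linarith
    have e1 : ∀ U ∈ Us, f U + κ U * cub (a :: A) (τ U) =
        (f U + (κ U * (τ U).headD 0) * quad a (τ U).tail) + κ U * cub A (τ U).tail := by
      intro U hU
      obtain ⟨b, t, hb, hb2⟩ := h1 U hU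
      rw [hb]
      simp only [cub, List.headD_cons, List.tail_cons]
      ring
    rw [List.map_congr_left e1, cubN]
    exact cubN_spec hw hc hbt' h3 s1 hf'

end specs

end Dadc30.Pk
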