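import Pool.Agent.Lib.MP_dadc30_coR.Pk.Loop

/-!
# Soundness of the packed recursion
-/

set_option autoImplicit false

namespace Dadc30.Pk

variable {ι : Type*}

/-- Numerical parameters. -/
structure Par (wa w : ℕ) (β β' Γ M M' : ℤ) (p : ℕ) : Prop where
  Mβ : M ≤ β
  Mβ' : M ≤ β'
  b0 : 0 ≤ β
  b0' : 0 ≤ β'
  g0 : 0 ≤ Γ
  M0 : 0 ≤ M
  wA : (p + 2) * β < 2 ^ wa
  wV : Γ + M + M' < 2 ^ w

/-- value of the scalar part -/
def evs (c : ℤ) (A : List ℤ) (Bs : List (List ℤ)) (Ts : List (List (List ℤ))) (x : List ℤ) : ℤ :=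
  c + lin A x + quad Bs x + cub Ts x

/-- value of the vector part at an index -/
def evv (U : ι) (v : ι → ℤ) (δs : List (ι → ℤ)) (θs : List (List (ι → ℤ))) (x : List ℤ) : ℤ :=
  v U + lin (ev U δs) x + quad (θs.map (ev U)) x

lemma vadd_length {δ θ : List (ι → ℤ)} (h : δ.length = θ.length) :
    (vadd δ θ).length = δ.length := by
  unfold vadd
  simp [h]

theorem go_sound {wa w : ℕ} {β β' Γ M M' : ℤ} {p : ℕ} (hp : Par wa w β β' Γ M M' p)
    {Us : List ι} {ones b2 : ℕ} (hones : (ones : ℤ) = enc (2 ^ (w + 1)) (Us.map fun _ => 1))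
    (hb2 : (b2 : ℤ) = β + β') : ∀ (q : ℕ) (lvs : List Lv) (Ts : List (List (List ℤ)))
    (θs : List (List (ι → ℤ))) (c : ℤ) (A : List ℤ) (Bs : List (List ℤ)) (v : ι → ℤ)
    (δs : List (ι → ℤ)) (m F RA RQ RS RE RV : ℕ) (RD : List ℕ) (x : List ℤ),
    LvR wa (w + 1) Us β' q lvs Ts θs → A.length = q → ShQ q Bs → m + q ≤ p →
    |c| + absL A + absQ Bs + absT Ts ≤ M →
    (∀ U ∈ Us, |v U| + absL (ev U δs) + absQ (θs.map (ev U)) ≤ M') → δs.length = q →
    (RA : ℤ) = enc (2 ^ wa) (A.map (· + (m + 1) * β)) →
    (∃ g : ℤ, (RQ : ℤ) = enc (2 ^ wa) (Bs.flatten.map (· + β)) +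
      (2 ^ wa) ^ Bs.flatten.length * g) →
    (RS : ℤ) = Γ - c + bV β' m → (RE : ℤ) = (m + 1) * (β + β') →
    IsV (w + 1) Us (bV β' m) RV v → List.Forall₂ (IsV (w + 1) Us ((m + 1) * β')) RD δs →
    go wa (2 ^ wa - 1) b2 (2 ^ w) ones (2 ^ w * ones) lvs F RA RQ RS RE RV RD = true →
    Leg (lvs.map Lv.nb) F x →
    ∀ U ∈ Us, evs c A Bs Ts x + evv U v δs θs x ≤ Γ := by
  intro q
  induction q with
  | zero =>
    intro lvs Ts θs c A Bs v δs m F RA RQ RS RE RV RD x hL hA hB hm hM hM' hδ hRA hRQ hRS hRE hRV
      hRD hgo hleg U hU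
    match lvs, Ts, θs, A, Bs, δs, x, hL, hA, hB, hδ, hleg with
    | [], [], [], [], [], [], [], _, _, _, _, _ =>
      rw [go_nil] at hgo
      have h1 : ∀ U ∈ Us, |(Γ - c) - v U| < 2 ^ w := by
        intro U hU
        have h2 := hM' U hU
        have h3 : |v U| ≤ M' := by
          have := absL_nonneg (ev U ([] : List (ι → ℤ)))
          have := absQ_nonneg (([] : List (List (ι → ℤ))).map (ev U))
          linarith
        have h4 : |c| ≤ M := by
          have := absL_nonneg []
          have := absQ_nonneg []
          have := absT_nonneg []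
          linarith
        have h5 := hp.wV
        have h6 := hp.g0
        rw [abs_lt]
        constructor
        · linarith [le_abs_self c, neg_abs_le c, le_abs_self (v U), neg_abs_le (v U)]
        · linarith [le_abs_self c, neg_abs_le c, le_abs_self (v U), neg_abs_le (v U)]
      have h2 := fin_spec hones hRS hRV h1 hgo U hU
      simp only [evs, evv, lin, quad, cub, ev, List.map_nil]
      linarith
  | succ q ih =>
    intro lvs Ts θs c A Bs v δs m F RA RQ RS RE RV RD x hL hA hB hm hM hM' hδ hRA hRQ hRS hRE hRV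
      hRD hgo hleg U hU
    match lvs, Ts, θs, A, Bs, δs, x, hL, hA, hB, hδ, hleg with
    | lv :: lvs, T :: Ts, θ :: θs, a :: A, B :: Bs, δ :: δs, y :: x, hL, hA, hB, hδ, hleg =>
      obtain ⟨hr, hrm, hT, ⟨g', hg'⟩, hth, hθ, hL'⟩ := hL
      obtain ⟨hB1, hB2⟩ := hB
      obtain ⟨g, hg⟩ := hRQ
      have hA' : A.length = q := by simpa using hA
      have hδ' : δs.length = q := by simpa using hδ
      have hMa : |a| ≤ M := by
        rw [absL_cons] at hM
        linarith [abs_nonneg c, absL_nonneg A, absQ_nonneg (B :: Bs), absT_nonneg (T :: Ts)]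
      have hMB : ∀ z ∈ B, |z| ≤ M := by
        intro z hz
        have h1 := abs_le_absL hz
        rw [absQ_cons] at hM
        linarith [abs_nonneg c, absL_nonneg (a :: A), absQ_nonneg Bs, absT_nonneg (T :: Ts)]
      have hm1 : ((m : ℤ) + 1) * β ≤ p * β := by
        have : m + 1 ≤ p := by omega
        have h2 : ((m : ℤ) + 1) ≤ p := by exact_mod_cast this
        exact mul_le_mul_of_nonneg_right h2 hp.b0
      have hm2 : 0 ≤ (m : ℤ) * β := mul_nonneg (Int.natCast_nonneg m) hp.b0
      have hdA : 0 ≤ a + (m + 1) * β ∧ a + (m + 1) * β < 2 ^ wa := by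
        have h1 := abs_le.mp hMa
        have h2 := hp.Mβ
        have h3 := hp.wA
        have h4 := hp.b0
        constructor <;> linarith
      have hdB : ∀ z ∈ B, 0 ≤ z + β ∧ z + β < 2 ^ wa := by
        intro z hz
        have h1 := abs_le.mp (hMB z hz)
        have h2 := hp.Mβ
        have h3 := hp.wA
        have h4 := hp.b0
        constructor <;> linarith
      obtain ⟨hA0, hA1⟩ := readA hRA hdA
      rw [List.flatten_cons] at hg
      obtain ⟨hQ0, hQ1⟩ := readQ (w := wa) hB1 hg hdB
      rw [← hr] at hQ0 hQ1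
      have hrm' : lv.rm = 2 ^ lv.r - 1 := by rw [hrm, hr]
      rw [← hrm'] at hQ0
      obtain ⟨hD0, hD1⟩ := hd_spec hRD
      rw [go_cons] at hgo
      obtain ⟨hskip, hchoose⟩ := hgo
      rw [List.map_cons] at hleg
      rcases hleg with ⟨hy, hleg⟩ | ⟨hy, hF, hleg⟩
      · -- skip
        subst hy
        have h1 := ih lvs Ts θs c A Bs v δs m (F >>> 1) (RA >>> wa) (RQ >>> lv.r) RS RE RV
          (tl RD) x hL' hA' hB2 (by omega) (by
            rw [absL_cons, absQ_cons, absT_cons] at hM
            linarith [abs_nonneg a, absL_nonneg B, absQ_nonneg T]) (by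
            intro U hU
            have h2 := hM' U hU
            unfold ev at h2 ⊢
            rw [List.map_cons, absL_cons, List.map_cons, absQ_cons] at h2
            linarith [abs_nonneg (δ U), absL_nonneg (List.map (fun f => f U) θ)])
          hδ' hA1 ⟨g, hQ1⟩ hRS hRE hRV hD1 hskip hleg U hU
        have e1 : evs c (a :: A) (B :: Bs) (T :: Ts) (0 :: x) = evs c A Bs Ts x := by
          simp [evs, lin, quad, cub]
        have e2 : evv U v (δ :: δs) (θ :: θs) (0 :: x) = evv U v δs θs x := by
          simp [evv, ev, lin, quad]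
        rw [e1, e2]
        exact h1
      · -- choose
        subst hy
        have hgo := hchoose hF
        have hlen : (B.map (· + β)).length = (A.map (· + (m + 1) * β)).length := by
          rw [List.length_map, List.length_map, hB1, hA']
        have hRA' : ((RA >>> wa + (RQ &&& lv.rm) : ℕ) : ℤ) =
            enc (2 ^ wa) ((ladd A B).map (· + ((m + 1 : ℕ) + 1) * β)) := by
          rw [Nat.cast_add, hA1, hQ0, ← enc_zipWith _ _ _ hlen.symm]
          congr 1
          unfold ladd
          rw [List.map_zipWith, List.zipWith_map]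
          congr 1
          funext s t
          push_cast
          ring
        have hRQ' : ∃ g : ℤ, ((RQ >>> lv.r + lv.t : ℕ) : ℤ) =
            enc (2 ^ wa) ((qadd Bs T).flatten.map (· + β)) +
              (2 ^ wa) ^ (qadd Bs T).flatten.length * g := by
          refine ⟨g + g', ?_⟩
          have hl1 := ShQ.len_flatten hB2 hT
          have hl2 := ShQ.len_flatten (ShQ.qadd hB2 hT) hB2
          rw [Nat.cast_add, hQ1, hg', hl2, hl1]
          have h34 : ∀ l : List ℤ, enc (2 ^ wa) (l.map (· + β)) =
              enc (2 ^ wa) l + enc (2 ^ wa) (l.map fun _ => β) := by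
            intro l
            have h := enc_map_add (2 ^ wa) l id (fun _ => β)
            rw [List.map_id] at h
            exact h
          have h3 := h34 (qadd Bs T).flatten
          have h4 := h34 Bs.flatten
          have h5 : enc (2 ^ wa) (List.map (fun _ : ℤ => β) (qadd Bs T).flatten) =
              enc (2 ^ wa) (List.map (fun _ : ℤ => β) Bs.flatten) := by
            rw [List.map_const', List.map_const', hl2]
          have h6 := enc_flatten_qadd (2 ^ wa) hB2 hT
          rw [h3, h4, h5]
          linear_combination -h6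
        have hRS' : ((RS + RE - (RA &&& (2 ^ wa - 1)) : ℕ) : ℤ) =
            Γ - (c + a) + bV β' (m + 1) := by
          have h1 : ((RA &&& (2 ^ wa - 1) : ℕ) : ℤ) ≤ ((RS + RE : ℕ) : ℤ) := by
            push_cast
            rw [hA0, hRS, hRE]
            have h2 := bV_ge hp.b0' m
            have h3 : 0 ≤ (m + 1) * β' := by
              have := hp.b0'
              positivity
            have h4 : |c| + |a| ≤ M := by
              rw [absL_cons] at hM
              linarith [absL_nonneg A, absQ_nonneg (B :: Bs), absT_nonneg (T :: Ts)]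
            linarith [hp.g0, hp.Mβ', le_abs_self c, le_abs_self a, neg_abs_le c, neg_abs_le a]
          have h2 : (RA &&& (2 ^ wa - 1)) ≤ RS + RE := by exact_mod_cast h1
          rw [Nat.cast_sub h2]
          push_cast
          rw [hA0, hRS, hRE]
          change _ = Γ - (c + a) + (bV β' m + (m + 1) * β')
          ring
        have hRE' : ((RE + b2 : ℕ) : ℤ) = ((m + 1 : ℕ) + 1) * (β + β') := by
          push_cast
          rw [hRE, hb2]
          ring
        have hRV' : IsV (w + 1) Us (bV β' (m + 1)) (RV + hd RD) (fun U => v U + δ U) := by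
          unfold IsV at hRV hD0 ⊢
          push_cast
          rw [hRV, hD0, ← enc_map_add]
          congr 1
          refine List.map_congr_left (fun U _ => ?_)
          change v U + bV β' m + (δ U + (m + 1) * β') = v U + δ U + (bV β' m + (m + 1) * β')
          ring
        have hRD' : List.Forall₂ (IsV (w + 1) Us (((m + 1 : ℕ) + 1) * β')) (zadd lv.th (tl RD))
            (vadd δs θ) := by
          have h1 := zadd_spec hth hD1 (by rw [hδ', hθ])
          have h2 : ((m : ℤ) + 1) * β' + β' = ((m + 1 : ℕ) + 1) * β' := by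
            push_cast
            ring
          rw [h2] at h1
          exact h1
        have h1 := ih lvs Ts θs (c + a) (ladd A B) (qadd Bs T) (fun U => v U + δ U) (vadd δs θ)
          (m + 1) (F >>> 1 ||| lv.nb) (RA >>> wa + (RQ &&& lv.rm)) (RQ >>> lv.r + lv.t)
          (RS + RE - (RA &&& (2 ^ wa - 1))) (RE + b2) (RV + hd RD) (zadd lv.th (tl RD)) x hL'
          (by rw [ladd_length (by rw [hA', hB1]), hA']) (ShQ.qadd hB2 hT) (by omega) (by
            rw [absL_cons, absQ_cons, absT_cons] at hM
            linarith [abs_add_le c a, absL_ladd A B, absQ_qadd Bs T]) (by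
            intro U hU
            have h2 := hM' U hU
            rw [ev_vadd]
            unfold ev at h2 ⊢
            rw [List.map_cons, absL_cons, List.map_cons, absQ_cons] at h2
            linarith [abs_add_le (v U) (δ U), absL_ladd (List.map (fun f => f U) δs)
              (List.map (fun f => f U) θ)])
          (by rw [vadd_length (by rw [hδ', hθ]), hδ']) hRA' hRQ' hRS' hRE' hRV' hRD' hgo hleg U hU
        have e1 : evs c (a :: A) (B :: Bs) (T :: Ts) (1 :: x) =
            evs (c + a) (ladd A B) (qadd Bs T) Ts x := by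
          unfold evs
          rw [lin_ladd _ _ _ (by rw [hA', hB1]), quad_qadd hB2 hT]
          simp only [lin, quad, cub]
          ring
        have e2 : evv U v (δ :: δs) (θ :: θs) (1 :: x) =
            evv U (fun U => v U + δ U) (vadd δs θ) θs x := by
          unfold evv
          rw [ev_vadd, lin_ladd _ _ _ (by unfold ev; rw [List.length_map, List.length_map, hδ', hθ])]
          unfold ev
          simp only [List.map_cons, lin, quad]
          ring
        rw [e1, e2]
        exact h1

end Dadc30.Pk
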