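import Pool.Agent.Lib.MP_dadc30_coR.Pk.Sound

/-!
# Splitting cubic polynomials into a front and a suffix part
-/

set_option autoImplicit false

namespace Dadc30.Pk

/-! ### Bounds for values at 0/1 vectors -/

/-- 0/1 vectors -/
def Bits (x : List ℤ) : Prop := ∀ y ∈ x, y = 0 ∨ y = 1

lemma Bits.tail {y : ℤ} {x : List ℤ} (h : Bits (y :: x)) : Bits x :=
  fun z hz => h z (List.mem_cons_of_mem _ hz)

lemma abs_lin : ∀ (A x : List ℤ), Bits x → |lin A x| ≤ absL A
  | a :: A, y :: x, h => by
    have ih := abs_lin A x h.tail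
    rw [lin, absL_cons]
    rcases h y List.mem_cons_self with hy | hy
    · subst hy
      rw [mul_zero, zero_add]
      linarith [abs_nonneg a]
    · subst hy
      rw [mul_one]
      exact (abs_add_le _ _).trans (by linarith)
  | [], x, _ => by simp [lin, absL]
  | a :: A, [], _ => by
    have := absL_nonneg (a :: A)
    simpa [lin] using this

lemma abs_quad : ∀ (A : List (List ℤ)) (x : List ℤ), Bits x → |quad A x| ≤ absQ A
  | a :: A, y :: x, h => by
    have ih := abs_quad A x h.tail
    have h1 := abs_lin a x h.tail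
    rw [quad, absQ_cons]
    rcases h y List.mem_cons_self with hy | hy
    · subst hy
      rw [zero_mul, zero_add]
      linarith [absL_nonneg a]
    · subst hy
      rw [one_mul]
      exact (abs_add_le _ _).trans (by linarith)
  | [], x, _ => by simp [quad, absQ]
  | a :: A, [], _ => by
    have := absQ_nonneg (a :: A)
    simpa [quad] using this

lemma abs_cub : ∀ (A : List (List (List ℤ))) (x : List ℤ), Bits x → |cub A x| ≤ absT A
  | a :: A, y :: x, h => by
    have ih := abs_cub A x h.tail
    have h1 := abs_quad a x h.tail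
    rw [cub, absT_cons]
    rcases h y List.mem_cons_self with hy | hy
    · subst hy
      rw [zero_mul, zero_add]
      linarith [absQ_nonneg a]
    · subst hy
      rw [one_mul]
      exact (abs_add_le _ _).trans (by linarith)
  | [], x, _ => by simp [cub, absT]
  | a :: A, [], _ => by
    have := absT_nonneg (a :: A)
    simpa [cub] using this

/-! ### Splitting -/

/-- front part of the first rows -/
def preQ : ℕ → List (List ℤ) → List (List ℤ)
  | q + 1, B :: Bs => B.take q :: preQ q Bs
  | _, _ => []

/-- front part of the first blocks -/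
def preT : ℕ → List (List (List ℤ)) → List (List (List ℤ))
  | q + 1, T :: Ts => preQ q T :: preT q Ts
  | _, _ => []

/-- linear parts of the first rows in the suffix variables -/
def rowF : ℕ → List (List ℤ) → List (List ℤ → ℤ)
  | q + 1, B :: Bs => (fun U => lin (B.drop q) U) :: rowF q Bs
  | _, _ => []

/-- coefficient functions of the front variables -/
def dF : ℕ → List (List ℤ) → List (List (List ℤ)) → List (List ℤ → ℤ)
  | q + 1, B :: Bs, T :: Ts => (fun U => lin (B.drop q) U + quad (T.drop q) U) :: dF q Bs Ts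
  | _, _, _ => []

/-- coefficient functions of the pairs of front variables -/
def thF : ℕ → List (List (List ℤ)) → List (List (List ℤ → ℤ))
  | q + 1, T :: Ts => rowF q T :: thF q Ts
  | _, _ => []

/-- the pure suffix part -/
def vF (p : ℕ) (A : List ℤ) (Bs : List (List ℤ)) (Ts : List (List (List ℤ))) (U : List ℤ) : ℤ :=
  lin (A.drop p) U + quad (Bs.drop p) U + cub (Ts.drop p) U

lemma lin_append : ∀ (q : ℕ) (A x U : List ℤ), x.length = q → q ≤ A.length →
    lin A (x ++ U) = lin (A.take q) x + lin (A.drop q) U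
  | 0, A, x, U, hx, _ => by
    have : x = [] := List.length_eq_zero_iff.mp hx
    subst this
    simp [lin]
  | q + 1, a :: A, y :: x, U, hx, hA => by
    have ih := lin_append q A x U (by simpa using hx) (by simpa using hA)
    rw [List.cons_append, lin, ih, List.take_succ_cons, List.drop_succ_cons, lin]
    ring
  | q + 1, [], _, _, _, hA => by simp at hA
  | q + 1, _ :: _, [], _, hx, _ => by simp at hx

lemma quad_append (r : ℕ) : ∀ (q : ℕ) (Bs : List (List ℤ)) (x U : List ℤ), x.length = q →
    ShQ (q + r) Bs →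
    quad Bs (x ++ U) = quad (preQ q Bs) x + lin (ev U (rowF q Bs)) x + quad (Bs.drop q) U
  | 0, Bs, x, U, hx, _ => by
    have : x = [] := List.length_eq_zero_iff.mp hx
    subst this
    simp [lin, quad, preQ]
  | q + 1, B :: Bs, y :: x, U, hx, h => by
    rw [show q + 1 + r = (q + r) + 1 by ring] at h
    obtain ⟨h1, h2⟩ := h
    have hx' : x.length = q := by simpa using hx
    have ih := quad_append r q Bs x U hx' h2
    rw [List.cons_append, quad, ih, lin_append q B x U hx' (by omega)]
    unfold ev
    rw [preQ, rowF, List.map_cons, quad, lin, List.drop_succ_cons]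
    ring
  | q + 1, [], _, _, _, h => by
    rw [show q + 1 + r = (q + r) + 1 by ring] at h
    cases h
  | q + 1, _ :: _, [], _, hx, _ => by simp at hx

/-- quadratic parts of the blocks in the suffix variables -/
def qF : ℕ → List (List (List ℤ)) → List (List ℤ → ℤ)
  | q + 1, T :: Ts => (fun U => quad (T.drop q) U) :: qF q Ts
  | _, _ => []

lemma cub_append (r : ℕ) : ∀ (q : ℕ) (Ts : List (List (List ℤ))) (x U : List ℤ), x.length = q →
    ShT (q + r) Ts →
    cub Ts (x ++ U) = cub (preT q Ts) x + quad ((thF q Ts).map (ev U)) x +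
      lin (ev U (qF q Ts)) x + cub (Ts.drop q) U
  | 0, Ts, x, U, hx, _ => by
    have : x = [] := List.length_eq_zero_iff.mp hx
    subst this
    simp [lin, quad, preT, cub]
  | q + 1, T :: Ts, y :: x, U, hx, h => by
    rw [show q + 1 + r = (q + r) + 1 by ring] at h
    obtain ⟨h1, h2⟩ := h
    have hx' : x.length = q := by simpa using hx
    have ih := cub_append r q Ts x U hx' h2
    rw [List.cons_append, cub, ih, quad_append r q T x U hx' h1]
    unfold ev
    rw [preT, thF, qF, List.map_cons, List.map_cons, cub, lin, quad, List.drop_succ_cons]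
    beta_reduce
    ring
  | q + 1, [], _, _, _, h => by
    rw [show q + 1 + r = (q + r) + 1 by ring] at h
    cases h
  | q + 1, _ :: _, [], _, hx, _ => by simp at hx

lemma ev_dF (r : ℕ) : ∀ (q : ℕ) (Bs : List (List ℤ)) (Ts : List (List (List ℤ))) (U : List ℤ),
    ShQ (q + r) Bs → ShT (q + r) Ts →
    ev U (dF q Bs Ts) = ladd (ev U (rowF q Bs)) (ev U (qF q Ts))
  | 0, Bs, Ts, U, _, _ => by simp [ev, ladd, dF, rowF]
  | q + 1, B :: Bs, T :: Ts, U, h, h' => by
    rw [show q + 1 + r = (q + r) + 1 by ring] at h h'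
    have ih := ev_dF r q Bs Ts U h.2 h'.2
    unfold ev ladd at ih ⊢
    rw [dF, rowF, qF, List.map_cons, List.map_cons, List.map_cons, List.zipWith_cons_cons, ih]
  | q + 1, [], _, _, h, _ => by
    rw [show q + 1 + r = (q + r) + 1 by ring] at h
    cases h
  | q + 1, _ :: _, [], _, _, h => by
    rw [show q + 1 + r = (q + r) + 1 by ring] at h
    cases h

lemma rowF_length : ∀ (r q : ℕ) (Bs : List (List ℤ)), ShQ (q + r) Bs → (rowF q Bs).length = q
  | _, 0, Bs, _ => by simp [rowF]
  | r, q + 1, B :: Bs, h => by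
    rw [show q + 1 + r = (q + r) + 1 by ring] at h
    rw [rowF, List.length_cons, rowF_length r q Bs h.2]
  | r, q + 1, [], h => by
    rw [show q + 1 + r = (q + r) + 1 by ring] at h
    cases h

lemma qF_length : ∀ (r q : ℕ) (Ts : List (List (List ℤ))), ShT (q + r) Ts →
    (qF q Ts).length = q
  | _, 0, Bs, _ => by simp [qF]
  | r, q + 1, B :: Bs, h => by
    rw [show q + 1 + r = (q + r) + 1 by ring] at h
    rw [qF, List.length_cons, qF_length r q Bs h.2]
  | r, q + 1, [], h => by
    rw [show q + 1 + r = (q + r) + 1 by ring] at h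
    cases h

lemma dF_length : ∀ (r q : ℕ) (Bs : List (List ℤ)) (Ts : List (List (List ℤ))), ShQ (q + r) Bs →
    ShT (q + r) Ts → (dF q Bs Ts).length = q
  | _, 0, Bs, Ts, _, _ => by simp [dF]
  | r, q + 1, B :: Bs, T :: Ts, h, h' => by
    rw [show q + 1 + r = (q + r) + 1 by ring] at h h'
    rw [dF, List.length_cons, dF_length r q Bs Ts h.2 h'.2]
  | r, q + 1, [], _, h, _ => by
    rw [show q + 1 + r = (q + r) + 1 by ring] at h
    cases h
  | r, q + 1, _ :: _, [], _, h => by
    rw [show q + 1 + r = (q + r) + 1 by ring] at h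
    cases h

lemma preQ_shape : ∀ (r q : ℕ) (Bs : List (List ℤ)), ShQ (q + r) Bs → ShQ q (preQ q Bs)
  | _, 0, Bs, _ => by
    cases Bs <;> trivial
  | r, q + 1, B :: Bs, h => by
    rw [show q + 1 + r = (q + r) + 1 by ring] at h
    rw [preQ]
    refine ⟨?_, preQ_shape r q Bs h.2⟩
    rw [List.length_take, h.1]
    omega
  | r, q + 1, [], h => by
    rw [show q + 1 + r = (q + r) + 1 by ring] at h
    cases h

/-- **Splitting.** -/
theorem split (r p : ℕ) (A : List ℤ) (Bs : List (List ℤ)) (Ts : List (List (List ℤ)))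
    (x U : List ℤ) (hx : x.length = p) (hA : p ≤ A.length) (hB : ShQ (p + r) Bs)
    (hT : ShT (p + r) Ts) :
    lin A (x ++ U) + quad Bs (x ++ U) + cub Ts (x ++ U) =
      evs 0 (A.take p) (preQ p Bs) (preT p Ts) x +
        evv U (vF p A Bs Ts) (dF p Bs Ts) (thF p Ts) x := by
  rw [lin_append p A x U hx hA, quad_append r p Bs x U hx hB, cub_append r p Ts x U hx hT]
  unfold evs evv vF
  rw [ev_dF r p Bs Ts U hB hT, lin_ladd]
  · ring
  · unfold ev
    rw [List.length_map, List.length_map, rowF_length r p Bs hB, qF_length r p Ts hT]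

/-! ### Masses of the parts -/

lemma absL_take_drop (q : ℕ) (A : List ℤ) : absL (A.take q) + absL (A.drop q) = absL A := by
  unfold absL
  rw [← List.sum_append, ← List.map_append, List.take_append_drop]

lemma absQ_drop_le (q : ℕ) (A : List (List ℤ)) : absQ (A.drop q) ≤ absQ A := by
  have h1 : absQ (A.take q) + absQ (A.drop q) = absQ A := by
    unfold absQ
    rw [← List.sum_append, ← List.map_append, List.take_append_drop]
  linarith [absQ_nonneg (A.take q)]

lemma absT_drop_le (q : ℕ) (A : List (List (List ℤ))) : absT (A.drop q) ≤ absT A := by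
  have h1 : absT (A.take q) + absT (A.drop q) = absT A := by
    unfold absT
    rw [← List.sum_append, ← List.map_append, List.take_append_drop]
  linarith [absT_nonneg (A.take q)]

lemma absQ_split (U : List ℤ) (hU : Bits U) : ∀ (q : ℕ) (Bs : List (List ℤ)),
    absQ (preQ q Bs) + absL (ev U (rowF q Bs)) + absQ (Bs.drop q) ≤ absQ Bs
  | 0, Bs => by simp [preQ, rowF, ev, absQ, absL]
  | q + 1, B :: Bs => by
    have ih := absQ_split U hU q Bs
    unfold ev at ih ⊢
    rw [preQ, rowF, List.map_cons, absQ_cons, absL_cons, List.drop_succ_cons, absQ_cons]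
    have h1 := absL_take_drop q B
    have h2 := abs_lin (B.drop q) U hU
    linarith
  | q + 1, [] => by simp [preQ, rowF, ev, absQ, absL]

lemma absT_split (U : List ℤ) (hU : Bits U) : ∀ (q : ℕ) (Ts : List (List (List ℤ))),
    absT (preT q Ts) + absQ ((thF q Ts).map (ev U)) + absL (ev U (qF q Ts)) +
      absT (Ts.drop q) ≤ absT Ts
  | 0, Bs => by simp [preT, thF, qF, ev, absQ, absL, absT]
  | q + 1, T :: Ts => by
    have ih := absT_split U hU q Ts
    have h1 := absQ_split U hU q T
    have h2 := abs_quad (T.drop q) U hU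
    unfold ev at ih h1 ⊢
    rw [preT, thF, qF, List.map_cons, List.map_cons, absT_cons, absL_cons, absQ_cons,
      List.drop_succ_cons, absT_cons]
    beta_reduce
    linarith
  | q + 1, [] => by simp [preT, thF, qF, ev, absQ, absL, absT]

theorem mass_split (r p : ℕ) (A : List ℤ) (Bs : List (List ℤ)) (Ts : List (List (List ℤ)))
    (U : List ℤ) (hU : Bits U) (hB : ShQ (p + r) Bs) (hT : ShT (p + r) Ts) :
    absL (A.take p) + absQ (preQ p Bs) + absT (preT p Ts) +
      (|vF p A Bs Ts U| + absL (ev U (dF p Bs Ts)) + absQ ((thF p Ts).map (ev U))) ≤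
      absL A + absQ Bs + absT Ts := by
  rw [ev_dF r p Bs Ts U hB hT]
  have h1 := absQ_split U hU p Bs
  have h2 := absT_split U hU p Ts
  have h3 := absL_take_drop p A
  have h4 := absL_ladd (ev U (rowF p Bs)) (ev U (qF p Ts))
  have h5 : |vF p A Bs Ts U| ≤ absL (A.drop p) + absQ (Bs.drop p) + absT (Ts.drop p) := by
    unfold vF
    have h6 := abs_lin (A.drop p) U hU
    have h7 := abs_quad (Bs.drop p) U hU
    have h8 := abs_cub (Ts.drop p) U hU
    calc |lin (A.drop p) U + quad (Bs.drop p) U + cub (Ts.drop p) U|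
        ≤ |lin (A.drop p) U| + |quad (Bs.drop p) U| + |cub (Ts.drop p) U| := abs_add_three _ _ _
      _ ≤ _ := by linarith
  linarith

end Dadc30.Pk
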