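import Pool.Agent.Lib.MP_dadc30_coR.Pk.Split

/-!
# Packed tables computed from the integer data
-/

set_option autoImplicit false

namespace Dadc30.Pk

/-! ### The independent sets of the suffix and their indicator vectors -/

/-- all legal 0/1 vectors -/
def UsL : List ℕ → ℕ → List (List ℤ)
  | [], _ => [[]]
  | nb :: nbs, F => (UsL nbs (F >>> 1)).map (0 :: ·) ++
      (if F % 2 = 0 then (UsL nbs (F >>> 1 ||| nb)).map (1 :: ·) else [])

lemma mem_UsL : ∀ (nbs : List ℕ) (F : ℕ) (x : List ℤ), Leg nbs F x → x ∈ UsL nbs F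
  | [], F, [], _ => by simp [UsL]
  | nb :: nbs, F, y :: x, h => by
    rw [UsL, List.mem_append]
    rcases h with ⟨hy, h⟩ | ⟨hy, hF, h⟩
    · left
      exact List.mem_map.mpr ⟨x, mem_UsL nbs _ x h, by rw [hy]⟩
    · right
      rw [if_pos hF]
      exact List.mem_map.mpr ⟨x, mem_UsL nbs _ x h, by rw [hy]⟩
  | [], _, _ :: _, h => by cases h
  | _ :: _, _, [], h => by cases h

lemma UsL_bits : ∀ (nbs : List ℕ) (F : ℕ) (x : List ℤ), x ∈ UsL nbs F →
    Bits x ∧ x.length = nbs.length
  | [], F, x, h => by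
    rw [UsL, List.mem_singleton] at h
    subst h
    exact ⟨fun y hy => absurd hy (List.not_mem_nil), rfl⟩
  | nb :: nbs, F, x, h => by
    rw [UsL, List.mem_append] at h
    rcases h with h | h
    · obtain ⟨z, hz, rfl⟩ := List.mem_map.mp h
      obtain ⟨h1, h2⟩ := UsL_bits nbs _ z hz
      refine ⟨?_, by rw [List.length_cons, h2, List.length_cons]⟩
      intro y hy
      rcases List.mem_cons.mp hy with rfl | hy
      · exact Or.inl rfl
      · exact h1 y hy
    · split_ifs at h
      · obtain ⟨z, hz, rfl⟩ := List.mem_map.mp h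
        obtain ⟨h1, h2⟩ := UsL_bits nbs _ z hz
        refine ⟨?_, by rw [List.length_cons, h2, List.length_cons]⟩
        intro y hy
        rcases List.mem_cons.mp hy with rfl | hy
        · exact Or.inr rfl
        · exact h1 y hy
      · exact absurd h (List.not_mem_nil)

/-- result of the computation of the indicator vectors -/
structure ChiRes where
  /-- number of legal vectors -/
  N : ℕ
  /-- packed all-one vector -/
  ones : ℕ
  /-- packed indicator vectors -/
  chi : List ℕ

/-- merging two lists of vectors -/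
def mergeC (s : ℕ) (l m : List ℕ) : List ℕ := List.zipWith (fun a b => a + b <<< s) l m

/-- packed indicator vectors -/
def chiR (w : ℕ) : List ℕ → ℕ → ChiRes
  | [], _ => ⟨1, 1, []⟩
  | nb :: nbs, F =>
    if F % 2 = 0 then
      ⟨(chiR w nbs (F >>> 1)).N + (chiR w nbs (F >>> 1 ||| nb)).N,
        (chiR w nbs (F >>> 1)).ones +
          (chiR w nbs (F >>> 1 ||| nb)).ones <<< (w * (chiR w nbs (F >>> 1)).N),
        (chiR w nbs (F >>> 1 ||| nb)).ones <<< (w * (chiR w nbs (F >>> 1)).N) ::
          mergeC (w * (chiR w nbs (F >>> 1)).N) (chiR w nbs (F >>> 1)).chi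
            (chiR w nbs (F >>> 1 ||| nb)).chi⟩
    else ⟨(chiR w nbs (F >>> 1)).N, (chiR w nbs (F >>> 1)).ones, 0 :: (chiR w nbs (F >>> 1)).chi⟩

/-- relation between the list of vectors and the packed indicators -/
def ChiOk (w : ℕ) {ι : Type*} (Us : List ι) : (ι → List ℤ) → List ℕ → Prop
  | τ, [] => ∀ U ∈ Us, τ U = []
  | τ, x :: xs => (∀ U ∈ Us, ∃ b t, τ U = b :: t ∧ (b = 0 ∨ b = 1)) ∧
      (x : ℤ) = enc (2 ^ w) (Us.map fun U => (τ U).headD 0) ∧ ChiOk w Us (fun U => (τ U).tail) xs

lemma ChiOk.congr {w : ℕ} {ι : Type*} {Us : List ι} : ∀ {τ τ' : ι → List ℤ} {xs : List ℕ},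
    ChiOk w Us τ xs → (∀ U ∈ Us, τ U = τ' U) → ChiOk w Us τ' xs
  | τ, τ', [], h, he => fun U hU => by rw [← he U hU]; exact h U hU
  | τ, τ', x :: xs, ⟨h1, h2, h3⟩, he => by
    refine ⟨fun U hU => by rw [← he U hU]; exact h1 U hU, ?_, ?_⟩
    · rw [h2]
      congr 1
      exact List.map_congr_left (fun U hU => by rw [he U hU])
    · exact ChiOk.congr h3 (fun U hU => by rw [he U hU])

lemma ChiOk.map {w : ℕ} {ι κ : Type*} (f : κ → ι) : ∀ {Us : List κ} {τ : ι → List ℤ}
    {xs : List ℕ}, ChiOk w (Us.map f) τ xs ↔ ChiOk w Us (fun U => τ (f U)) xs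
  | Us, τ, [] => by simp [ChiOk]
  | Us, τ, x :: xs => by
    have ih := ChiOk.map (w := w) f (Us := Us) (τ := fun U => (τ U).tail) (xs := xs)
    unfold ChiOk
    rw [ih]
    simp [List.map_map, Function.comp_def]

lemma ChiOk.append {w : ℕ} {ι : Type*} : ∀ {Us Vs : List ι} {τ : ι → List ℤ} {xs ys : List ℕ},
    ChiOk w Us τ xs → ChiOk w Vs τ ys → xs.length = ys.length →
    ChiOk w (Us ++ Vs) τ (mergeC (w * Us.length) xs ys)
  | Us, Vs, τ, [], [], h1, h2, _ => by
    intro U hU
    rcases List.mem_append.mp hU with h | h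
    · exact h1 U h
    · exact h2 U h
  | Us, Vs, τ, x :: xs, y :: ys, ⟨a1, a2, a3⟩, ⟨b1, b2, b3⟩, hl => by
    unfold mergeC
    rw [List.zipWith_cons_cons]
    refine ⟨?_, ?_, ?_⟩
    · intro U hU
      rcases List.mem_append.mp hU with h | h
      · exact a1 U h
      · exact b1 U h
    · rw [List.map_append, enc_append, List.length_map, ← a2, ← b2, Nat.shiftLeft_eq]
      push_cast
      rw [pow_mul]
      ring
    · exact ChiOk.append a3 b3 (by simpa using hl)
  | _, _, _, [], _ :: _, _, _, hl => by simp at hl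
  | _, _, _, _ :: _, [], _, _, hl => by simp at hl

lemma enc_const (X b : ℤ) {ι κ : Type*} (l : List ι) (m : List κ) (h : l.length = m.length) :
    enc X (l.map fun _ => b) = enc X (m.map fun _ => b) := by
  rw [List.map_const', List.map_const', h]

theorem chiR_spec (w : ℕ) : ∀ (nbs : List ℕ) (F : ℕ),
    (chiR w nbs F).N = (UsL nbs F).length ∧
    ((chiR w nbs F).ones : ℤ) = enc (2 ^ w) ((UsL nbs F).map fun _ => 1) ∧
    (chiR w nbs F).chi.length = nbs.length ∧ ChiOk w (UsL nbs F) id (chiR w nbs F).chi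
  | [], F => by
    refine ⟨rfl, ?_, rfl, ?_⟩
    · simp [chiR, UsL]
    · intro U hU
      rw [UsL, List.mem_singleton] at hU
      exact hU
  | nb :: nbs, F => by
    obtain ⟨n0, o0, l0, c0⟩ := chiR_spec w nbs (F >>> 1)
    obtain ⟨n1, o1, l1, c1⟩ := chiR_spec w nbs (F >>> 1 ||| nb)
    have hz : ChiOk w ((UsL nbs (F >>> 1)).map (0 :: ·)) (fun U => U.tail)
        (chiR w nbs (F >>> 1)).chi := by
      rw [ChiOk.map]
      exact c0
    have ho : ChiOk w ((UsL nbs (F >>> 1 ||| nb)).map (1 :: ·)) (fun U => U.tail)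
        (chiR w nbs (F >>> 1 ||| nb)).chi := by
      rw [ChiOk.map]
      exact c1
    by_cases hF : F % 2 = 0
    · rw [chiR, if_pos hF, UsL, if_pos hF]
      refine ⟨?_, ?_, ?_, ?_, ?_, ?_⟩
      · rw [List.length_append, List.length_map, List.length_map]
        simp only
        rw [n0, n1]
      · simp only
        rw [List.map_append, List.map_map, List.map_map, enc_append, Nat.shiftLeft_eq,
          List.length_map, ← n0]
        push_cast
        rw [o0, o1, pow_mul]
        simp only [Function.comp_def]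
        ring
      · simp only
        unfold mergeC
        rw [List.length_cons, List.length_zipWith, l0, l1, min_self, List.length_cons]
      · intro U hU
        rcases List.mem_append.mp hU with h | h
        · obtain ⟨z, -, rfl⟩ := List.mem_map.mp h
          exact ⟨0, z, rfl, Or.inl rfl⟩
        · obtain ⟨z, -, rfl⟩ := List.mem_map.mp h
          exact ⟨1, z, rfl, Or.inr rfl⟩
      · simp only [id]
        rw [List.map_append, List.map_map, List.map_map, enc_append, Nat.shiftLeft_eq,
          List.length_map, ← n0]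
        push_cast
        rw [o1, pow_mul]
        simp only [Function.comp_def, List.headD_cons]
        have h1 : enc (2 ^ w) ((UsL nbs (F >>> 1)).map fun _ => (0 : ℤ)) = 0 := by
          have h2 := enc_map_mul (2 ^ w) 0 (UsL nbs (F >>> 1)) (fun _ => (0 : ℤ))
          simpa using h2
        rw [h1]
        ring
      · simp only [id]
        have h1 := hz.append ho (by rw [l0, l1])
        rw [List.length_map, ← n0] at h1
        exact h1
    · rw [chiR, if_neg hF, UsL, if_neg hF, List.append_nil]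
      refine ⟨?_, ?_, ?_, ?_, ?_, ?_⟩
      · rw [List.length_map]
        exact n0
      · rw [List.map_map]
        exact o0
      · rw [List.length_cons, List.length_cons, l0]
      · intro U hU
        obtain ⟨z, -, rfl⟩ := List.mem_map.mp hU
        exact ⟨0, z, rfl, Or.inl rfl⟩
      · simp only [id]
        rw [List.map_map]
        simp only [Function.comp_def, List.headD_cons]
        have h2 := enc_map_mul (2 ^ w) 0 (UsL nbs (F >>> 1)) (fun _ => (0 : ℤ))
        simpa using h2.symm
      · exact hz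

/-! ### Packed values of forms -/

/-- linear form against packed indicators, restricted by a packed indicator `c` -/
def dotC (c : ℕ) : List ℤ → List ℕ → ℤ
  | a :: A, x :: xs => if a = 0 then dotC c A xs else a * ((c &&& x : ℕ) : ℤ) + dotC c A xs
  | _, _ => 0

/-- quadratic form -/
def quadC (c : ℕ) : List (List ℤ) → List ℕ → ℤ
  | B :: Bs, x :: xs => dotC (c &&& x) B xs + quadC c Bs xs
  | _, _ => 0

/-- cubic form -/
def cubC (c : ℕ) : List (List (List ℤ)) → List ℕ → ℤ
  | T :: Ts, x :: xs => quadC (c &&& x) T xs + cubC c Ts xs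
  | _, _ => 0

/-- linear form without restriction -/
def dot0 : List ℤ → List ℕ → ℤ
  | a :: A, x :: xs => if a = 0 then dot0 A xs else a * (x : ℤ) + dot0 A xs
  | _, _ => 0

section forms

variable {ι : Type*} {w : ℕ} {Us : List ι}

/-- packed 0/1 vectors -/
def Is01 (w : ℕ) (Us : List ι) (c : ℕ) (κ : ι → ℤ) : Prop :=
  (∀ U ∈ Us, κ U = 0 ∨ κ U = 1) ∧ (c : ℤ) = enc (2 ^ w) (Us.map κ)

lemma Is01.and {c d : ℕ} {κ η : ι → ℤ} (hw : 0 < w) (h : Is01 w Us c κ) (h' : Is01 w Us d η) :
    Is01 w Us (c &&& d) (fun U => κ U * η U) := by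
  obtain ⟨h1, h2⟩ := h
  obtain ⟨h3, h4⟩ := h'
  refine ⟨?_, ?_⟩
  · intro U hU
    rcases h1 U hU with h | h <;> rcases h3 U hU with h' | h' <;> simp [h, h']
  · have e1 : encN w (Us.map fun U => (κ U).toNat) = c := by
      have : (encN w (Us.map fun U => (κ U).toNat) : ℤ) = (c : ℤ) := by
        rw [encN_cast, h2, List.map_map]
        congr 1
        refine List.map_congr_left (fun U hU => ?_)
        rcases h1 U hU with h | h <;> simp [h]
      exact_mod_cast this
    have e2 : encN w (Us.map fun U => (η U).toNat) = d := by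
      have : (encN w (Us.map fun U => (η U).toNat) : ℤ) = (d : ℤ) := by
        rw [encN_cast, h4, List.map_map]
        congr 1
        refine List.map_congr_left (fun U hU => ?_)
        rcases h3 U hU with h | h <;> simp [h]
      exact_mod_cast this
    have hp : 1 < 2 ^ w := Nat.one_lt_two_pow hw.ne'
    rw [← e1, ← e2, encN_and w _ _ (by simp), encN_cast]
    · congr 1
      rw [List.zipWith_map, List.zipWith_self, List.map_map]
      refine List.map_congr_left (fun U hU => ?_)
      rcases h1 U hU with h | h <;> rcases h3 U hU with h' | h' <;> simp [h, h']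
    · intro x hx
      obtain ⟨U, hU, rfl⟩ := List.mem_map.mp hx
      rcases h1 U hU with h | h <;> simp [h, hp]
    · intro x hx
      obtain ⟨U, hU, rfl⟩ := List.mem_map.mp hx
      rcases h3 U hU with h | h <;> simp [h, hp]

lemma dotC_spec (hw : 0 < w) : ∀ {A : List ℤ} {xs : List ℕ} {c : ℕ} {κ : ι → ℤ}
    {τ : ι → List ℤ}, Is01 w Us c κ → ChiOk w Us τ xs →
    dotC c A xs = enc (2 ^ w) (Us.map fun U => κ U * lin A (τ U))
  | [], xs, c, κ, τ, _, _ => by
    have h2 := enc_map_mul (2 ^ w) 0 Us (fun _ => (0 : ℤ))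
    simpa [dotC, lin] using h2.symm
  | a :: A, [], c, κ, τ, _, h => by
    have h1 : enc (2 ^ w) (Us.map fun U => κ U * lin (a :: A) (τ U)) =
        enc (2 ^ w) (Us.map fun _ => (0 : ℤ)) := by
      congr 1
      refine List.map_congr_left (fun U hU => ?_)
      rw [h U hU]
      simp [lin]
    have h2 := enc_map_mul (2 ^ w) 0 Us (fun _ => (0 : ℤ))
    rw [h1]
    simpa [dotC] using h2.symm
  | a :: A, x :: xs, c, κ, τ, hc, h => by
    obtain ⟨h1, h2, h3⟩ := h
    have ih := dotC_spec hw (A := A) hc h3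
    have hx : Is01 w Us x (fun U => (τ U).headD 0) := by
      refine ⟨fun U hU => ?_, h2⟩
      obtain ⟨b, t, hb, hb2⟩ := h1 U hU
      beta_reduce
      rw [hb]
      exact hb2
    have hcx := (hc.and hw hx).2
    have e1 : enc (2 ^ w) (Us.map fun U => κ U * lin (a :: A) (τ U)) =
        a * enc (2 ^ w) (Us.map fun U => κ U * (τ U).headD 0) +
          enc (2 ^ w) (Us.map fun U => κ U * lin A (τ U).tail) := by
      rw [← enc_map_mul, ← enc_map_add]
      congr 1
      refine List.map_congr_left (fun U hU => ?_)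
      obtain ⟨b, t, hb, hb2⟩ := h1 U hU
      rw [hb]
      simp only [lin, List.headD_cons, List.tail_cons]
      ring
    rw [e1, ← hcx, dotC, ih]
    split_ifs with h0
    · rw [h0]; ring
    · rfl

lemma quadC_spec (hw : 0 < w) : ∀ {A : List (List ℤ)} {xs : List ℕ} {c : ℕ} {κ : ι → ℤ}
    {τ : ι → List ℤ}, Is01 w Us c κ → ChiOk w Us τ xs →
    quadC c A xs = enc (2 ^ w) (Us.map fun U => κ U * quad A (τ U))
  | [], xs, c, κ, τ, _, _ => by
    have h2 := enc_map_mul (2 ^ w) 0 Us (fun _ => (0 : ℤ))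
    simpa [quadC, quad] using h2.symm
  | a :: A, [], c, κ, τ, _, h => by
    have h1 : enc (2 ^ w) (Us.map fun U => κ U * quad (a :: A) (τ U)) =
        enc (2 ^ w) (Us.map fun _ => (0 : ℤ)) := by
      congr 1
      refine List.map_congr_left (fun U hU => ?_)
      rw [h U hU]
      simp [quad]
    have h2 := enc_map_mul (2 ^ w) 0 Us (fun _ => (0 : ℤ))
    rw [h1]
    simpa [quadC] using h2.symm
  | a :: A, x :: xs, c, κ, τ, hc, h => by
    obtain ⟨h1, h2, h3⟩ := h
    have ih := quadC_spec hw (A := A) hc h3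
    have hx : Is01 w Us x (fun U => (τ U).headD 0) := by
      refine ⟨fun U hU => ?_, h2⟩
      obtain ⟨b, t, hb, hb2⟩ := h1 U hU
      beta_reduce
      rw [hb]
      exact hb2
    have hcx := hc.and hw hx
    have hd := dotC_spec hw (A := a) hcx h3
    rw [quadC, ih, hd, ← enc_map_add]
    congr 1
    refine List.map_congr_left (fun U hU => ?_)
    obtain ⟨b, t, hb, hb2⟩ := h1 U hU
    rw [hb]
    simp only [quad, List.headD_cons, List.tail_cons]
    ring

lemma cubC_spec (hw : 0 < w) : ∀ {A : List (List (List ℤ))} {xs : List ℕ} {c : ℕ} {κ : ι → ℤ}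
    {τ : ι → List ℤ}, Is01 w Us c κ → ChiOk w Us τ xs →
    cubC c A xs = enc (2 ^ w) (Us.map fun U => κ U * cub A (τ U))
  | [], xs, c, κ, τ, _, _ => by
    have h2 := enc_map_mul (2 ^ w) 0 Us (fun _ => (0 : ℤ))
    simpa [cubC, cub] using h2.symm
  | a :: A, [], c, κ, τ, _, h => by
    have h1 : enc (2 ^ w) (Us.map fun U => κ U * cub (a :: A) (τ U)) =
        enc (2 ^ w) (Us.map fun _ => (0 : ℤ)) := by
      congr 1
      refine List.map_congr_left (fun U hU => ?_)
      rw [h U hU]
      simp [cub]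
    have h2 := enc_map_mul (2 ^ w) 0 Us (fun _ => (0 : ℤ))
    rw [h1]
    simpa [cubC] using h2.symm
  | a :: A, x :: xs, c, κ, τ, hc, h => by
    obtain ⟨h1, h2, h3⟩ := h
    have ih := cubC_spec hw (A := A) hc h3
    have hx : Is01 w Us x (fun U => (τ U).headD 0) := by
      refine ⟨fun U hU => ?_, h2⟩
      obtain ⟨b, t, hb, hb2⟩ := h1 U hU
      beta_reduce
      rw [hb]
      exact hb2
    have hcx := hc.and hw hx
    have hd := quadC_spec hw (A := a) hcx h3
    rw [cubC, ih, hd, ← enc_map_add]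
    congr 1
    refine List.map_congr_left (fun U hU => ?_)
    obtain ⟨b, t, hb, hb2⟩ := h1 U hU
    rw [hb]
    simp only [cub, List.headD_cons, List.tail_cons]
    ring

lemma dot0_spec : ∀ {A : List ℤ} {xs : List ℕ} {τ : ι → List ℤ}, ChiOk w Us τ xs →
    dot0 A xs = enc (2 ^ w) (Us.map fun U => lin A (τ U))
  | [], xs, τ, _ => by
    have h2 := enc_map_mul (2 ^ w) 0 Us (fun _ => (0 : ℤ))
    simpa [dot0, lin] using h2.symm
  | a :: A, [], τ, h => by
    have h1 : enc (2 ^ w) (Us.map fun U => lin (a :: A) (τ U)) =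
        enc (2 ^ w) (Us.map fun _ => (0 : ℤ)) := by
      congr 1
      refine List.map_congr_left (fun U hU => ?_)
      rw [h U hU]
      simp [lin]
    have h2 := enc_map_mul (2 ^ w) 0 Us (fun _ => (0 : ℤ))
    rw [h1]
    simpa [dot0] using h2.symm
  | a :: A, x :: xs, τ, h => by
    obtain ⟨h1, h2, h3⟩ := h
    have ih := dot0_spec (A := A) h3
    have e1 : enc (2 ^ w) (Us.map fun U => lin (a :: A) (τ U)) =
        a * enc (2 ^ w) (Us.map fun U => (τ U).headD 0) +
          enc (2 ^ w) (Us.map fun U => lin A (τ U).tail) := by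
      rw [← enc_map_mul, ← enc_map_add]
      congr 1
      refine List.map_congr_left (fun U hU => ?_)
      obtain ⟨b, t, hb, hb2⟩ := h1 U hU
      rw [hb]
      simp only [lin, List.headD_cons, List.tail_cons]
    rw [e1, ← h2, dot0, ih]
    split_ifs with h0
    · rw [h0]; ring
    · rfl

end forms

end Dadc30.Pk
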