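import Pool.Agent.Lib.MP_dadc30_coR.Pk.Main

/-!
# Level data, independence, and the main theorem
-/

set_option autoImplicit false

namespace Dadc30.Pk

/-! ### Rows of tables -/

/-- rowwise encoding -/
def encR (X : ℤ) : List (List ℤ) → ℤ
  | [] => 0
  | B :: Bs => enc X B + X ^ B.length * encR X Bs

/-- total length -/
def lenR : List (List ℤ) → ℕ
  | [] => 0
  | B :: Bs => B.length + lenR Bs

lemma encR_eq (X : ℤ) : ∀ Bs : List (List ℤ), encR X Bs = enc X Bs.flatten
  | [] => rfl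
  | B :: Bs => by rw [encR, List.flatten_cons, enc_append, encR_eq X Bs]

lemma lenR_eq : ∀ Bs : List (List ℤ), lenR Bs = Bs.flatten.length
  | [] => rfl
  | B :: Bs => by rw [lenR, List.flatten_cons, List.length_append, lenR_eq Bs]

section tables

variable {w : ℕ} {Us : List (List ℤ)} {β' : ℤ} {acc ones : ℕ} {chi : List ℕ}

lemma const_spec (hacc : (acc : ℤ) = enc (2 ^ w) (Us.map fun _ => β')) :
    IsV w Us β' acc (fun _ => 0) := by
  unfold IsV
  rw [hacc]
  simp

lemma thN_spec (hacc : (acc : ℤ) = enc (2 ^ w) (Us.map fun _ => β'))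
    (hchi : ChiOk w Us id chi) : ∀ (q : ℕ) (Bs : List (List ℤ)), absQ Bs ≤ β' →
    List.Forall₂ (IsV w Us β') (thN acc chi q Bs) (rowF q Bs)
  | 0, Bs, _ => by
    rw [thN, rowF]
    · exact List.Forall₂.nil
    · simp
    · simp
  | q + 1, [], _ => by
    rw [thN, rowF]
    · exact List.Forall₂.nil
    · simp
    · simp
  | q + 1, B :: Bs, h => by
    rw [absQ_cons] at h
    rw [thN, rowF]
    refine List.Forall₂.cons ?_ (thN_spec hacc hchi q Bs (by linarith [absL_nonneg B]))
    have h1 := absL_take_drop q B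
    have h2 := dotN_spec (A := B.drop q) hchi hacc (fun U _ => by
      linarith [absL_nonneg (B.take q), absQ_nonneg Bs])
    unfold IsV
    rw [h2]
    congr 1
    refine List.map_congr_left (fun U _ => ?_)
    simp only [id]
    ring

lemma dN_spec (hw : 0 < w) (hacc : (acc : ℤ) = enc (2 ^ w) (Us.map fun _ => β'))
    (hones : (ones : ℤ) = enc (2 ^ w) (Us.map fun _ => 1)) (hbt : ∀ U ∈ Us, Bits U)
    (hchi : ChiOk w Us id chi) : ∀ (q : ℕ) (Bs : List (List ℤ)) (Ts : List (List (List ℤ))),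
    absQ Bs + absT Ts ≤ β' →
    List.Forall₂ (IsV w Us β') (dN acc ones chi q Bs Ts) (dF q Bs Ts)
  | 0, Bs, Ts, _ => by
    rw [dN, dF]
    · exact List.Forall₂.nil
    · simp
    · simp
  | q + 1, [], Ts, _ => by
    rw [dN, dF]
    · exact List.Forall₂.nil
    · simp
    · simp
  | q + 1, B :: Bs, [], _ => by
    rw [dN, dF]
    · exact List.Forall₂.nil
    · simp
    · simp
  | q + 1, B :: Bs, T :: Ts, h => by
    rw [absQ_cons, absT_cons] at h
    rw [dN, dF]
    refine List.Forall₂.cons ?_ (dN_spec hw hacc hones hbt hchi q Bs Ts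
      (by linarith [absL_nonneg B, absQ_nonneg T]))
    have h1 := absL_take_drop q B
    have h1' := absQ_drop_le q T
    have h2 := dotN_spec (A := B.drop q) hchi hacc (fun U _ => by
      linarith [absL_nonneg (B.take q), absQ_nonneg Bs, absT_nonneg Ts, absQ_nonneg T])
    have hc : Is01 w Us ones (fun _ => 1) := ⟨fun _ _ => Or.inr rfl, hones⟩
    have h3 := quadN_spec hw (A := T.drop q) hc (τ := id) hbt hchi h2 (fun U hU => by
      have h4 := abs_lin (B.drop q) U (hbt U hU)
      have h5 := neg_abs_le (lin (B.drop q) U)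
      simp only [id]
      linarith [absL_nonneg (B.take q), absQ_nonneg Bs, absT_nonneg Ts, absQ_nonneg T])
    unfold IsV
    rw [h3]
    congr 1
    refine List.map_congr_left (fun U _ => ?_)
    simp only [id]
    ring

lemma vN_spec (hw : 0 < w) (hacc : (acc : ℤ) = enc (2 ^ w) (Us.map fun _ => β'))
    (hones : (ones : ℤ) = enc (2 ^ w) (Us.map fun _ => 1)) (hbt : ∀ U ∈ Us, Bits U)
    (hchi : ChiOk w Us id chi) (p : ℕ) (A : List ℤ) (Bs : List (List ℤ))
    (Ts : List (List (List ℤ))) (h : absL A + absQ Bs + absT Ts ≤ β') :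
    IsV w Us β' (cubN ones (quadN ones (dotN acc (A.drop p) chi) (Bs.drop p) chi) (Ts.drop p) chi)
      (vF p A Bs Ts) := by
  have h1 := absL_take_drop p A
  have h1' := absQ_drop_le p Bs
  have h1'' := absT_drop_le p Ts
  have h2 := dotN_spec (A := A.drop p) hchi hacc (fun U _ => by
    linarith [absL_nonneg (A.take p), absQ_nonneg Bs, absT_nonneg Ts])
  have hc : Is01 w Us ones (fun _ => 1) := ⟨fun _ _ => Or.inr rfl, hones⟩
  have h3 := quadN_spec hw (A := Bs.drop p) hc (τ := id) hbt hchi h2 (fun U hU => by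
    have h4 := abs_lin (A.drop p) U (hbt U hU)
    have h5 := neg_abs_le (lin (A.drop p) U)
    simp only [id]
    linarith [absL_nonneg (A.take p), absT_nonneg Ts])
  have h6 := cubN_spec hw (A := Ts.drop p) hc (τ := id) hbt hchi h3 (fun U hU => by
    have h4 := abs_lin (A.drop p) U (hbt U hU)
    have h5 := neg_abs_le (lin (A.drop p) U)
    have h7 := abs_quad (Bs.drop p) U (hbt U hU)
    have h8 := neg_abs_le (quad (Bs.drop p) U)
    simp only [id]
    linarith [absL_nonneg (A.take p)])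
  unfold IsV vF
  rw [h6]
  congr 1
  refine List.map_congr_left (fun U _ => ?_)
  simp only [id]
  ring

end tables

/-! ### Levels -/

/-- check of the level data -/
def chkL (wa : ℕ) : ℕ → List ℕ → List Lit → List (List (List ℤ)) → Bool
  | 0, _, [], _ => true
  | q + 1, a :: adj, l :: ls, T :: Ts => Nat.beq l.nb (a % 2 ^ q) && Nat.beq l.r (wa * q) &&
      Nat.beq l.rm (2 ^ (wa * q) - 1) &&
      decide ((l.t : ℤ) = encR ((2 ^ wa : ℕ) : ℤ) (preQ q T) %
        ((2 ^ (wa * lenR (preQ q T)) : ℕ) : ℤ)) && chkL wa q adj ls Ts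
  | _, _, _, _ => false

lemma chkL_LvR {wa w r : ℕ} {Us : List (List ℤ)} {β' : ℤ} {acc : ℕ} {chi : List ℕ}
    (hacc : (acc : ℤ) = enc (2 ^ w) (Us.map fun _ => β')) (hchi : ChiOk w Us id chi) :
    ∀ (q : ℕ) (adj : List ℕ) (ls : List Lit) (Ts : List (List (List ℤ))),
    chkL wa q adj ls Ts = true → ShT (q + r) Ts → absT Ts ≤ β' →
    LvR wa w Us β' q (mkLvs acc chi q ls Ts) (preT q Ts) (thF q Ts)
  | 0, adj, ls, Ts, _, _, _ => by
    rw [mkLvs, preT, thF]
    · trivial
    · simp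
    · simp
    · simp
  | q + 1, a :: adj, l :: ls, T :: Ts, h, hT, hm => by
    rw [show q + 1 + r = (q + r) + 1 by ring] at hT
    rw [chkL, Bool.and_eq_true, Bool.and_eq_true, Bool.and_eq_true, Bool.and_eq_true,
      decide_eq_true_eq] at h
    obtain ⟨⟨⟨⟨h1, h2⟩, h3⟩, h4⟩, h5⟩ := h
    rw [absT_cons] at hm
    rw [mkLvs, preT, thF]
    refine ⟨Nat.eq_of_beq_eq_true h2, Nat.eq_of_beq_eq_true h3, preQ_shape r q T hT.1, ?_,
      thN_spec hacc hchi q T (by linarith [absT_nonneg Ts]), rowF_length r q T hT.1,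
      chkL_LvR hacc hchi q adj ls Ts h5 hT.2 (by linarith [absQ_nonneg T])⟩
    refine ⟨-(encR ((2 ^ wa : ℕ) : ℤ) (preQ q T) / ((2 ^ (wa * lenR (preQ q T)) : ℕ) : ℤ)), ?_⟩
    change (l.t : ℤ) = _
    rw [h4, Int.emod_def, encR_eq, lenR_eq]
    push_cast
    rw [pow_mul]
    ring
  | q + 1, [], _, _, h, _, _ => by simp [chkL] at h
  | q + 1, _ :: _, [], _, h, _, _ => by simp [chkL] at h
  | q + 1, _ :: _, _ :: _, [], h, _, _ => by simp [chkL] at h

/-! ### Independence -/

/-- independence in terms of masks -/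
def Ind : List ℕ → List ℤ → Prop
  | a :: adj, y :: x => (y = 1 → ∀ i, a.testBit i = true → x.getD i 0 = 0) ∧ Ind adj x
  | _, _ => True

/-- forbidden vertices are not used -/
def Fok (F : ℕ) (x : List ℤ) : Prop := ∀ i, F.testBit i = true → x.getD i 0 = 0

lemma Fok.shift {F : ℕ} {y : ℤ} {x : List ℤ} (h : Fok F (y :: x)) : Fok (F >>> 1) x := by
  intro i hi
  rw [Nat.testBit_shiftRight] at hi
  have h1 := h (1 + i) hi
  rw [add_comm 1 i, List.getD_cons_succ] at h1
  exact h1

lemma Leg_of_Ind : ∀ (nbs : List ℕ) (F : ℕ) (x : List ℤ), Bits x → x.length = nbs.length →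
    Ind nbs x → Fok F x → Leg nbs F x
  | [], F, [], _, _, _, _ => trivial
  | nb :: nbs, F, y :: x, hb, hl, hi, hF => by
    have hl' : x.length = nbs.length := by simpa using hl
    rcases hb y List.mem_cons_self with hy | hy
    · left
      exact ⟨hy, Leg_of_Ind nbs _ x hb.tail hl' hi.2 hF.shift⟩
    · right
      refine ⟨hy, ?_, Leg_of_Ind nbs _ x hb.tail hl' hi.2 ?_⟩
      · rcases Nat.mod_two_eq_zero_or_one F with h | h
        · exact h
        · exfalso
          have h1 := hF 0 (by simp [Nat.testBit_zero, h])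
          rw [List.getD_cons_zero, hy] at h1
          exact one_ne_zero h1
      · intro i hi'
        rw [Nat.testBit_or, Bool.or_eq_true] at hi'
        rcases hi' with h | h
        · exact hF.shift i h
        · exact hi.1 hy i h
  | [], _, _ :: _, _, hl, _, _ => by simp at hl
  | _ :: _, _, [], _, hl, _, _ => by simp at hl

lemma chkL_length {wa : ℕ} {acc : ℕ} {chi : List ℕ} : ∀ {q : ℕ} {adj : List ℕ} {ls : List Lit}
    {Ts : List (List (List ℤ))}, chkL wa q adj ls Ts = true →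
    (mkLvs acc chi q ls Ts).length = q
  | 0, adj, ls, Ts, _ => by simp [mkLvs]
  | q + 1, a :: adj, l :: ls, T :: Ts, h => by
    rw [chkL, Bool.and_eq_true] at h
    rw [mkLvs, List.length_cons, chkL_length h.2]
  | q + 1, [], _, _, h => by simp [chkL] at h
  | q + 1, _ :: _, [], _, h => by simp [chkL] at h
  | q + 1, _ :: _, _ :: _, [], h => by simp [chkL] at h

lemma chkL_Ind {wa : ℕ} {acc : ℕ} {chi : List ℕ} : ∀ {q : ℕ} {adj : List ℕ} {ls : List Lit}
    {Ts : List (List (List ℤ))} {x U : List ℤ}, chkL wa q adj ls Ts = true → x.length = q →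
    Ind adj (x ++ U) → Ind ((mkLvs acc chi q ls Ts).map Lv.nb) x
  | 0, adj, ls, Ts, x, U, _, hx, _ => by
    have : x = [] := List.length_eq_zero_iff.mp hx
    subst this
    rw [mkLvs]
    · trivial
    · simp
  | q + 1, a :: adj, l :: ls, T :: Ts, y :: x, U, h, hx, hI => by
    have hx' : x.length = q := by simpa using hx
    rw [List.cons_append] at hI
    have h' := h
    rw [chkL, Bool.and_eq_true, Bool.and_eq_true, Bool.and_eq_true, Bool.and_eq_true] at h'
    obtain ⟨⟨⟨⟨h1, -⟩, -⟩, -⟩, h5⟩ := h'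
    rw [mkLvs, List.map_cons]
    refine ⟨fun hy i hi => ?_, chkL_Ind h5 hx' hI.2⟩
    change l.nb.testBit i = true at hi
    rw [Nat.eq_of_beq_eq_true h1, Nat.testBit_mod_two_pow] at hi
    simp only [Bool.and_eq_true, decide_eq_true_eq] at hi
    have h2 := hI.1 hy i hi.2
    rw [List.getD_append _ _ _ _ (by rw [hx']; exact hi.1)] at h2
    exact h2
  | q + 1, [], _, _, _, _, h, _, _ => by simp [chkL] at h
  | q + 1, _ :: _, [], _, _, _, h, _, _ => by simp [chkL] at h
  | q + 1, _ :: _, _ :: _, [], _, _, h, _, _ => by simp [chkL] at h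
  | q + 1, _ :: _, _ :: _, _ :: _, [], _, _, hx, _ => by simp at hx

lemma Ind_drop : ∀ (p : ℕ) (adj : List ℕ) (x U : List ℤ), x.length = p → Ind adj (x ++ U) →
    Ind (adj.drop p) U
  | 0, adj, x, U, hx, h => by
    have : x = [] := List.length_eq_zero_iff.mp hx
    subst this
    exact h
  | p + 1, a :: adj, y :: x, U, hx, h => by
    rw [List.cons_append] at h
    rw [List.drop_succ_cons]
    exact Ind_drop p adj x U (by simpa using hx) h.2
  | p + 1, [], x, U, hx, h => by
    simp [Ind]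
  | p + 1, _ :: _, [], _, hx, _ => by simp at hx

/-! ### Shapes -/

/-- check of the shape -/
def shQb : ℕ → List (List ℤ) → Bool
  | 0, [] => true
  | q + 1, B :: Bs => Nat.beq B.length q && shQb q Bs
  | _, _ => false

/-- check of the shape -/
def shTb : ℕ → List (List (List ℤ)) → Bool
  | 0, [] => true
  | q + 1, T :: Ts => shQb q T && shTb q Ts
  | _, _ => false

lemma shQb_spec : ∀ {q : ℕ} {Bs : List (List ℤ)}, shQb q Bs = true → ShQ q Bs
  | 0, [], _ => trivial
  | q + 1, B :: Bs, h => by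
    rw [shQb, Bool.and_eq_true] at h
    exact ⟨Nat.eq_of_beq_eq_true h.1, shQb_spec h.2⟩
  | 0, _ :: _, h => by simp [shQb] at h
  | _ + 1, [], h => by simp [shQb] at h

lemma shTb_spec : ∀ {q : ℕ} {Ts : List (List (List ℤ))}, shTb q Ts = true → ShT q Ts
  | 0, [], _ => trivial
  | q + 1, T :: Ts, h => by
    rw [shTb, Bool.and_eq_true] at h
    exact ⟨shQb_spec h.1, shTb_spec h.2⟩
  | 0, _ :: _, h => by simp [shTb] at h
  | _ + 1, [], h => by simp [shTb] at h

/-! ### Instances -/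

/-- The checks of the tables, all of them decidable. -/
structure Ok (d : Dat) : Prop where
  hA : Nat.beq d.A.length (d.p + d.r) = true
  hB : shQb (d.p + d.r) d.Bs = true
  hT : shTb (d.p + d.r) d.Ts = true
  hadj : Nat.beq d.adj.length (d.p + d.r) = true
  hβ : absL d.A + absQ d.Bs + absT d.Ts ≤ d.β
  hβ' : absL d.A + absQ d.Bs + absT d.Ts ≤ d.β'
  hw : d.Γ + (absL d.A + absQ d.Bs + absT d.Ts) < 2 ^ d.w
  hwa : (d.p + 2) * d.β < 2 ^ d.wa
  hchi : (chiR (d.w + 1) (d.adj.drop d.p) 0).chi = d.chi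
  hones : (chiR (d.w + 1) (d.adj.drop d.p) 0).ones = d.ones
  hHH : 2 ^ d.w * d.ones = d.HH
  hacc : d.β' * d.ones = d.acc
  hlits : chkL d.wa d.p d.adj d.lits d.Ts = true
  hRA : (d.RA : ℤ) = enc ((2 ^ d.wa : ℕ) : ℤ) ((d.A.take d.p).map (· + (d.β : ℤ)))
  hRQ : (d.RQ : ℤ) = encR ((2 ^ d.wa : ℕ) : ℤ) ((preQ d.p d.Bs).map (List.map (· + (d.β : ℤ))))
  hV0 : cubN d.ones (quadN d.ones (dotN d.acc (d.A.drop d.p) d.chi) (d.Bs.drop d.p) d.chi)
    (d.Ts.drop d.p) d.chi = d.V0
  hD0 : dN d.acc d.ones d.chi d.p d.Bs d.Ts = d.D0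

theorem main (d : Dat) (h : Ok d)
    (hgo : go d.wa (2 ^ d.wa - 1) (d.β + d.β') (2 ^ d.w) d.ones d.HH d.lvs 0 d.RA d.RQ
      (d.Γ + d.β') (d.β + d.β') d.V0 d.D0 = true)
    (x : List ℤ) (hx : Bits x) (hl : x.length = d.p + d.r) (hI : Ind d.adj x) :
    lin d.A x + quad d.Bs x + cub d.Ts x ≤ d.Γ := by
  have hw1 : 0 < d.w + 1 := Nat.succ_pos _
  have hA := Nat.eq_of_beq_eq_true h.hA
  have hB := shQb_spec h.hB
  have hT := shTb_spec h.hT
  have hadj := Nat.eq_of_beq_eq_true h.hadj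
  obtain ⟨-, c2, -, c4⟩ := chiR_spec (d.w + 1) (d.adj.drop d.p) 0
  rw [h.hchi] at c4
  rw [h.hones] at c2
  have hacc : (d.acc : ℤ) =
      enc (2 ^ (d.w + 1)) ((UsL (d.adj.drop d.p) 0).map fun _ => (d.β' : ℤ)) := by
    rw [← h.hacc]
    push_cast
    rw [c2, ← enc_map_mul]
    congr 1
    refine List.map_congr_left (fun U _ => ?_)
    ring
  have hbt : ∀ U ∈ UsL (d.adj.drop d.p) 0, Bits U := fun U hU => (UsL_bits _ _ U hU).1
  -- split the vector
  have hx1 : (x.take d.p).length = d.p := by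
    rw [List.length_take, hl]
    omega
  have hx2 : (x.drop d.p).length = d.r := by
    rw [List.length_drop, hl]
    omega
  have hxx : x.take d.p ++ x.drop d.p = x := List.take_append_drop _ _
  have hb1 : Bits (x.take d.p) := fun y hy => hx y (List.mem_of_mem_take hy)
  have hb2 : Bits (x.drop d.p) := fun y hy => hx y (List.mem_of_mem_drop hy)
  have hI' : Ind d.adj (x.take d.p ++ x.drop d.p) := by rw [hxx]; exact hI
  have hleg : Leg (d.lvs.map Lv.nb) 0 (x.take d.p) := by
    refine Leg_of_Ind _ _ _ hb1 ?_ (chkL_Ind h.hlits hx1 hI') ?_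
    · rw [List.length_map, hx1]
      exact (chkL_length h.hlits).symm
    · intro i hi
      simp at hi
  have hU : x.drop d.p ∈ UsL (d.adj.drop d.p) 0 := by
    refine mem_UsL _ _ _ (Leg_of_Ind _ _ _ hb2 ?_ (Ind_drop _ _ _ _ hx1 hI') ?_)
    · rw [hx2, List.length_drop, hadj]
      omega
    · intro i hi
      simp at hi
  -- masses
  have m0 : 0 ≤ absL d.A + absQ d.Bs + absT d.Ts := by
    linarith [absL_nonneg d.A, absQ_nonneg d.Bs, absT_nonneg d.Ts]
  have m1 := fun U (hU : U ∈ UsL (d.adj.drop d.p) 0) =>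
    mass_split d.r d.p d.A d.Bs d.Ts U (hbt U hU) hB hT
  have m2 : 0 ≤ absL (d.A.take d.p) + absQ (preQ d.p d.Bs) + absT (preT d.p d.Ts) := by
    linarith [absL_nonneg (d.A.take d.p), absQ_nonneg (preQ d.p d.Bs),
      absT_nonneg (preT d.p d.Ts)]
  have m3 : absL (d.A.take d.p) + absQ (preQ d.p d.Bs) + absT (preT d.p d.Ts) ≤
      absL d.A + absQ d.Bs + absT d.Ts := by
    have := m1 _ hU
    linarith [abs_nonneg (vF d.p d.A d.Bs d.Ts (x.drop d.p)),
      absL_nonneg (ev (x.drop d.p) (dF d.p d.Bs d.Ts)),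
      absQ_nonneg ((thF d.p d.Ts).map (ev (x.drop d.p)))]
  have hpar : Par d.wa d.w (d.β : ℤ) (d.β' : ℤ) (d.Γ : ℤ)
      (absL (d.A.take d.p) + absQ (preQ d.p d.Bs) + absT (preT d.p d.Ts))
      (absL d.A + absQ d.Bs + absT d.Ts -
        (absL (d.A.take d.p) + absQ (preQ d.p d.Bs) + absT (preT d.p d.Ts))) d.p :=
    { Mβ := m3.trans h.hβ
      Mβ' := m3.trans h.hβ'
      b0 := Int.natCast_nonneg _
      b0' := Int.natCast_nonneg _
      g0 := Int.natCast_nonneg _
      M0 := m2
      wA := by exact_mod_cast h.hwa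
      wV := by
        have := h.hw
        linarith }
  have key := go_sound hpar (Us := UsL (d.adj.drop d.p) 0) (ones := d.ones) (b2 := d.β + d.β') c2
    (by push_cast; ring) d.p d.lvs (preT d.p d.Ts) (thF d.p d.Ts) 0 (d.A.take d.p)
    (preQ d.p d.Bs) (vF d.p d.A d.Bs d.Ts) (dF d.p d.Bs d.Ts) 0 0 d.RA d.RQ (d.Γ + d.β')
    (d.β + d.β') d.V0 d.D0 (x.take d.p)
    (chkL_LvR hacc c4 d.p d.adj d.lits d.Ts h.hlits hT (by
      have := h.hβ'
      linarith [absL_nonneg d.A, absQ_nonneg d.Bs]))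
    (by rw [List.length_take, hA]; omega) (preQ_shape d.r d.p d.Bs hB) (by omega)
    (by rw [abs_zero]; linarith)
    (fun U hU => by
      have := m1 U hU
      linarith)
    (dF_length d.r d.p d.Bs d.Ts hB hT)
    (by
      rw [h.hRA]
      push_cast
      simp only [one_mul])
    ⟨0, by
      rw [h.hRQ, encR_eq, ← List.map_flatten]
      push_cast
      ring⟩
    (by
      change _ = (d.Γ : ℤ) - 0 + (d.β' : ℤ)
      push_cast
      ring)
    (by push_cast; ring)
    (by
      rw [← h.hV0]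
      exact vN_spec hw1 hacc c2 hbt c4 d.p d.A d.Bs d.Ts h.hβ')
    (by
      rw [← h.hD0]
      have h1 : ((0 : ℕ) : ℤ) + 1 = 1 := by norm_num
      rw [h1, one_mul]
      exact dN_spec hw1 hacc c2 hbt c4 d.p d.Bs d.Ts (by
        have := h.hβ'
        linarith [absL_nonneg d.A]))
    (by
      rw [h.hHH]
      exact hgo)
    hleg (x.drop d.p) hU
  have hs := split d.r d.p d.A d.Bs d.Ts (x.take d.p) (x.drop d.p) hx1 (by rw [hA]; omega) hB hT
  rw [hxx] at hs
  rw [hs]
  exact key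

/-! ### Chunks -/

lemma goR_sound {w msk β2 H ones HH : ℕ} (L : List (ℕ × ℕ)) :
    ∀ (k : ℕ) (l : List Lv) (c F A Q S E V : ℕ) (D : List ℕ),
    (∀ e ∈ L, goR w msk β2 H ones HH e.1 e.2 k l c F A Q S E V D = true) →
    (∀ u, c * 2 ^ k ≤ u → u < (c + 1) * 2 ^ k → ∃ e ∈ L, e.1 ≤ u ∧ u < e.2) →
    go w msk β2 H ones HH l F A Q S E V D = true
  | 0, l, c, F, A, Q, S, E, V, D, h, hc => by
    obtain ⟨e, he, h1, h2⟩ := hc c (by simp) (by simp)
    have h3 := h e he
    rw [goR] at h3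
    have h4 : Nat.ble e.1 c = true := Nat.ble_eq.mpr h1
    have h5 : Nat.blt c e.2 = true := Nat.ble_eq.mpr h2
    rw [h4, h5] at h3
    exact h3
  | k + 1, [], c, F, A, Q, S, E, V, D, h, hc => by
    obtain ⟨e, he, -, -⟩ := hc (c * 2 ^ (k + 1)) le_rfl (by
      have : 0 < 2 ^ (k + 1) := by positivity
      rw [add_mul, one_mul]
      omega)
    exact h e he
  | k + 1, lv :: l, c, F, A, Q, S, E, V, D, h, hc => by
    rw [go_cons]
    refine ⟨?_, fun hF => ?_⟩
    · refine goR_sound L k l (2 * c) (F >>> 1) (A >>> w) (Q >>> lv.r) S E V (tl D) ?_ ?_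
      · intro e he
        have h1 := h e he
        rw [goR] at h1
        cases h2 : goR w msk β2 H ones HH e.1 e.2 k l (2 * c) (Nat.shiftRight F 1)
          (Nat.shiftRight A w) (Nat.shiftRight Q lv.r) S E V (tl D) with
        | false => rw [h2] at h1; exact h1
        | true => rfl
      · intro u h1 h2
        refine hc u ?_ ?_
        · calc c * 2 ^ (k + 1) = 2 * c * 2 ^ k := by ring
            _ ≤ u := h1
        · calc u < (2 * c + 1) * 2 ^ k := h2
            _ ≤ (2 * c + 2) * 2 ^ k := Nat.mul_le_mul_right _ (by omega)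
            _ = (c + 1) * 2 ^ (k + 1) := by ring
    · refine goR_sound L k l (2 * c + 1) (F >>> 1 ||| lv.nb) (A >>> w + (Q &&& lv.rm))
        (Q >>> lv.r + lv.t) (S + E - (A &&& msk)) (E + β2) (V + hd D) (zadd lv.th (tl D)) ?_ ?_
      · intro e he
        have h1 := h e he
        rw [goR] at h1
        have h3 : Nat.beq (Nat.land F 1) 1 = false := by
          change Nat.beq (F &&& 1) 1 = false
          rw [Nat.and_one_is_mod, hF]
          rfl
        rw [h3] at h1
        cases h2 : goR w msk β2 H ones HH e.1 e.2 k l (2 * c) (Nat.shiftRight F 1)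
          (Nat.shiftRight A w) (Nat.shiftRight Q lv.r) S E V (tl D) with
        | false => rw [h2] at h1; exact absurd h1 (by simp)
        | true => rw [h2] at h1; exact h1
      · intro u h1 h2
        refine hc u ?_ ?_
        · calc c * 2 ^ (k + 1) = 2 * c * 2 ^ k := by ring
            _ ≤ (2 * c + 1) * 2 ^ k := Nat.mul_le_mul_right _ (by omega)
            _ ≤ u := h1
        · calc u < (2 * c + 1 + 1) * 2 ^ k := h2
            _ = (c + 1) * 2 ^ (k + 1) := by ring

/-- coverage of `[s, t)` by the intervals -/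
def covers (t : ℕ) : ℕ → List (ℕ × ℕ) → Bool
  | s, [] => Nat.ble t s
  | s, e :: L => and (Nat.ble e.1 s) (covers t e.2 L)

lemma covers_spec {t : ℕ} : ∀ {L : List (ℕ × ℕ)} {s : ℕ}, covers t s L = true →
    ∀ u, s ≤ u → u < t → ∃ e ∈ L, e.1 ≤ u ∧ u < e.2
  | [], s, h, u, h1, h2 => by
    rw [covers] at h
    have := Nat.ble_eq.mp h
    omega
  | e :: L, s, h, u, h1, h2 => by
    rw [covers, Bool.and_eq_true] at h
    have h3 := Nat.ble_eq.mp h.1
    by_cases h4 : u < e.2
    · exact ⟨e, List.mem_cons_self, h3.trans h1, h4⟩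
    · obtain ⟨e', he', h5⟩ := covers_spec h.2 u (not_lt.mp h4) h2
      exact ⟨e', List.mem_cons_of_mem _ he', h5⟩

theorem main_chunks (d : Dat) (h : Ok d) (k : ℕ) (L : List (ℕ × ℕ))
    (hL : covers (2 ^ k) 0 L = true) (hc : ∀ e ∈ L, chunk d k e.1 e.2 = true)
    (x : List ℤ) (hx : Bits x) (hl : x.length = d.p + d.r) (hI : Ind d.adj x) :
    lin d.A x + quad d.Bs x + cub d.Ts x ≤ d.Γ := by
  refine main d h ?_ x hx hl hI
  refine goR_sound L k d.lvs 0 0 d.RA d.RQ _ _ d.V0 d.D0 hc ?_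
  intro u h1 h2
  exact covers_spec hL u (Nat.zero_le u) (by simpa using h2)

end Dadc30.Pk
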